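import Pool.Agent.Lib.MP_1a91b9_ntV.D.Defs
import Pool.Agent.Lib.MP_1a91b9_ntQ.D.HBound

/-!
# MP_1a91b9_nt (twists over other fields), part D: the inner sum

The sum over the families supported on an unlinked set is a product of local factors.
-/

set_option autoImplicit false
set_option linter.unusedSectionVars false

namespace Pool.Agent.Lib.MP_1a91b9_ntV

open Finset Pool.Agent.Lib.MP_1a91b9_ntH Pool.Agent.Lib.MP_1a91b9_ntQ
open Pool.Agent.Lib.MP_1a91b9_ntQ.D (ss_union_left ss_union_right ss_empty_left ss_empty_right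
  uni_union famU_prodC uni_empty)

noncomputable section

variable {ι : Type} [DecidableEq ι] {L : Type} [Fintype L] [DecidableEq L] {κ : Type} [Fintype κ]

/-- On an unlinked set the exponents vanish. -/
theorem LG.Unl.phi {Λ : LG L ι} (hos : ∀ l m, Λ.Phi l m = 0 ∨ Λ.Phi m l = 0) {U : Finset L}
    (hU : Λ.Unl U) {l m : L} (hl : l ∈ U) (hm : m ∈ U) : Λ.Phi l m = 0 := by
  have h := hU l hl m hm
  unfold LG.lk at h
  rcases hos l m with h1 | h1
  · exact h1
  · rwa [h1, add_zero] at h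

theorem eg_unl (D : Dat2 ι κ) (Λ : LG L ι) (hos : ∀ l m, Λ.Phi l m = 0 ∨ Λ.Phi m l = 0)
    (U : Finset L) (hU : Λ.Unl U) (d : L → Finset ι) (h0 : ∀ l, l ∉ U → d l = ∅) :
    eg D Λ d = 0 := by
  unfold eg
  refine sum_eq_zero fun l _ => sum_eq_zero fun m _ => ?_
  by_cases hl : l ∈ U
  · by_cases hm : m ∈ U
    · rw [hU.phi hos hl hm, zero_mul]
    · rw [h0 m hm, ss_empty_right, mul_zero]
  · rw [h0 l hl, ss_empty_left, mul_zero]

theorem eg_union (D : Dat2 ι κ) (Λ : LG L ι) (b d : L → Finset ι)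
    (h : Disjoint (uni b) (uni d)) :
    eg D Λ (fun l => b l ∪ d l) = eg D Λ b + eg D Λ d +
      ∑ l, ∑ m, Λ.Phi l m * (D.ss (b l) (d m) + D.ss (d l) (b m)) := by
  have hdis : ∀ l m, Disjoint (b l) (d m) := fun l m =>
    disjoint_of_subset_left (sub_uni b l) (disjoint_of_subset_right (sub_uni d m) h)
  unfold eg
  rw [← sum_add_distrib, ← sum_add_distrib]
  refine sum_congr rfl fun l _ => ?_
  rw [← sum_add_distrib, ← sum_add_distrib]
  refine sum_congr rfl fun m _ => ?_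
  show Λ.Phi l m * D.ss (b l ∪ d l) (b m ∪ d m) = _
  rw [ss_union_left D (hdis l l), ss_union_right D (hdis m m), ss_union_right D (hdis m m)]
  ring

omit [DecidableEq ι] in
private theorem inner_ss_left (D : Dat2 ι κ) (S T : Finset ι) : D.ss S T = ∑ q ∈ S, D.ss {q} T := by
  unfold Dat2.ss
  refine sum_congr rfl fun q _ => ?_
  rw [sum_singleton]

omit [DecidableEq ι] in
private theorem inner_ss_right (D : Dat2 ι κ) (S T : Finset ι) :
    D.ss S T = ∑ q ∈ T, D.ss S {q} := by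
  unfold Dat2.ss
  rw [sum_comm]
  refine sum_congr rfl fun q _ => ?_
  refine sum_congr rfl fun p _ => ?_
  rw [sum_singleton]

omit [DecidableEq ι] [DecidableEq L] in
private theorem inner_cross (D : Dat2 ι κ) (Λ : LG L ι) (b d : L → Finset ι) :
    ∑ l, ∑ m, Λ.Phi l m * (D.ss (b l) (d m) + D.ss (d l) (b m)) =
      ∑ l, ∑ q ∈ d l, xg D Λ b l q := by
  have h1 : ∑ l, ∑ m, Λ.Phi l m * (D.ss (b l) (d m) + D.ss (d l) (b m)) =
      ∑ l, ∑ m, Λ.Phi m l * D.ss (b m) (d l) + ∑ l, ∑ m, Λ.Phi l m * D.ss (d l) (b m) := by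
    rw [sum_comm (f := fun l m => Λ.Phi m l * D.ss (b m) (d l)), ← sum_add_distrib]
    refine sum_congr rfl fun l _ => ?_
    rw [← sum_add_distrib]
    exact sum_congr rfl fun m _ => mul_add _ _ _
  rw [h1, ← sum_add_distrib]
  refine sum_congr rfl fun l _ => ?_
  unfold xg
  rw [← sum_add_distrib, sum_comm]
  refine sum_congr rfl fun m _ => ?_
  rw [sum_add_distrib, ← mul_sum, ← mul_sum, ← inner_ss_left, ← inner_ss_right, add_comm]

theorem wg_union (Λ : LG L ι) (b d : L → Finset ι) (h : Disjoint (uni b) (uni d)) :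
    wg Λ (fun l => b l ∪ d l) = wg Λ b * wg Λ d := by
  unfold wg
  rw [← prod_mul_distrib]
  refine prod_congr rfl fun l _ => ?_
  exact prod_union (disjoint_of_subset_left (sub_uni b l) (disjoint_of_subset_right (sub_uni d l) h))

private theorem inner_term (D : Dat2 ι κ) (Λ : LG L ι)
    (hos : ∀ l m, Λ.Phi l m = 0 ∨ Λ.Phi m l = 0) (U : Finset L)
    (hU : Λ.Unl U) (b : L → Finset ι) (S : Finset ι)
    (hS : Disjoint S (uni b)) (d : L → Finset ι) (hd : d ∈ FamU U S) :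
    FG D Λ (fun l => b l ∪ d l) =
      wg Λ b * e2 (eg D Λ b) * ∏ l, ∏ q ∈ d l, (Λ.g l q * e2 (xg D Λ b l q)) := by
  obtain ⟨h1, h2, h3⟩ := mem_FamU.1 hd
  have h4 : Disjoint (uni b) (uni d) := by
    rw [h2]
    exact hS.symm
  have h5 : ∏ l, ∏ q ∈ d l, (Λ.g l q * e2 (xg D Λ b l q)) =
      wg Λ d * e2 (∑ l, ∑ q ∈ d l, xg D Λ b l q) := by
    rw [e2_sum]
    unfold wg
    rw [← prod_mul_distrib]
    refine prod_congr rfl fun l _ => ?_
    rw [e2_sum, ← prod_mul_distrib]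
  unfold FG
  rw [wg_union Λ b d h4, eg_union D Λ b d h4, eg_unl D Λ hos U hU d h3, add_zero, h5, inner_cross,
    e2_add]
  ring

theorem inner_eqG (D : Dat2 ι κ) (Λ : LG L ι)
    (hos : ∀ l m, Λ.Phi l m = 0 ∨ Λ.Phi m l = 0) (U : Finset L)
    (hU : Λ.Unl U) (b : L → Finset ι) (S : Finset ι) (hS : Disjoint S (uni b)) :
    ∑ d ∈ FamU U S, FG D Λ (fun l => b l ∪ d l) =
      wg Λ b * e2 (eg D Λ b) * ∏ q ∈ S, HG D Λ U b q := by
  rw [sum_congr rfl (inner_term D Λ hos U hU b S hS), ← mul_sum,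
    famU_prodC U S (fun l q => Λ.g l q * e2 (xg D Λ b l q))]
  rfl

omit [DecidableEq ι] in
theorem xg_empty (D : Dat2 ι κ) (Λ : LG L ι) (l : L) (q : ι) :
    xg D Λ (fun _ => ∅) l q = 0 := by
  unfold xg
  simp only [ss_empty_left, ss_empty_right, mul_zero, add_zero, sum_const_zero]

omit [DecidableEq ι] [DecidableEq L] in
theorem eg_empty (D : Dat2 ι κ) (Λ : LG L ι) : eg D Λ (fun _ : L => (∅ : Finset ι)) = 0 := by
  unfold eg
  simp only [ss_empty_left, mul_zero, sum_const_zero]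

omit [DecidableEq ι] [DecidableEq L] in
theorem wg_empty (Λ : LG L ι) : wg Λ (fun _ : L => (∅ : Finset ι)) = 1 := by
  unfold wg
  simp only [prod_empty, prod_const_one]

theorem innerT_sumG [PS ι] (D : Dat2 ι κ) (Λ : LG L ι)
    (hos : ∀ l m, Λ.Phi l m = 0 ∨ Λ.Phi m l = 0) (X : ℕ) (U : Finset L) (hU : Λ.Unl U) :
    ∑ S ∈ Sx ι X, ∑ d ∈ FamU U S, FG D Λ d = ∑ S ∈ Sx ι X, ∏ q ∈ S, ∑ l ∈ U, Λ.g l q := by
  refine sum_congr rfl fun S _ => ?_
  have h2 := inner_eqG D Λ hos U hU (fun _ => ∅) S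
    (by rw [uni_empty]; exact disjoint_empty_right _)
  rw [eg_empty, wg_empty, e2_zero, one_mul, one_mul] at h2
  simp only [empty_union] at h2
  rw [h2]
  refine prod_congr rfl fun q _ => ?_
  unfold HG
  refine sum_congr rfl fun l _ => ?_
  rw [xg_empty, e2_zero, mul_one]

/-- The weight of a small family is at most `1`. -/
theorem norm_wg_le (Λ : LG L ι) (hn : ∀ l q, ‖Λ.g l q‖ ≤ 1) (b : L → Finset ι) :
    ‖wg Λ b‖ ≤ 1 := by
  unfold wg
  rw [norm_prod]
  refine prod_le_one (fun _ _ => norm_nonneg _) fun l _ => ?_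
  rw [norm_prod]
  exact prod_le_one (fun _ _ => norm_nonneg _) fun q _ => hn l q

theorem wg_zero (Λ : LG L ι) (b : L → Finset ι) (h : ¬ ∀ l, ∀ q ∈ b l, Λ.g l q ≠ 0) :
    wg Λ b = 0 := by
  push Not at h
  obtain ⟨l, q, hq, h0⟩ := h
  unfold wg
  exact prod_eq_zero (mem_univ l) (prod_eq_zero hq h0)

end

end Pool.Agent.Lib.MP_1a91b9_ntV
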