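import Pool.Agent.Lib.MP_1a91b9_ntH.D.DivLog
import Pool.Agent.Lib.MP_1a91b9_ntH.D.Split
import Pool.Agent.Lib.MP_1a91b9_ntH.D.FamProd
import Pool.Agent.Lib.MP_1a91b9_ntV.D.Inner

/-!
# MP_1a91b9_nt (twists over other fields), part D: patterns which are not maximal
-/

set_option autoImplicit false

namespace Pool.Agent.Lib.MP_1a91b9_ntV

open Finset Pool.Agent.Lib.MP_1a91b9_ntH Pool.Agent.Lib.MP_1a91b9_ntQ

noncomputable section

set_option linter.unusedSectionVars false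

variable {ι : Type} [DecidableEq ι] [PS ι] {L : Type} [Fintype L] [DecidableEq L] {κ : Type} [Fintype κ]

omit [PS ι] in
private theorem small_absG (D : Dat2 ι κ) (Λ : LG L ι) (d : L → Finset ι) :
    ‖FG D Λ d‖ = ∏ l, ∏ q ∈ d l, ‖Λ.g l q‖ := by
  unfold FG wg
  rw [norm_mul, norm_e2, mul_one, norm_prod]
  refine prod_congr rfl fun l _ => ?_
  rw [norm_prod]

omit [PS ι] in
private theorem small_innerG (D : Dat2 ι κ) (Λ : LG L ι) (hn : ∀ l q, ‖Λ.g l q‖ ≤ 1)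
    (Z : Finset L) (S : Finset ι) (b : L → Finset ι) (hS : Disjoint S (uni b)) :
    ∑ d ∈ FamU Z S, ‖FG D Λ (fun l => b l ∪ d l)‖ ≤ ∏ q ∈ S, ∑ l ∈ Z, ‖Λ.g l q‖ := by
  rw [← famU_prod Z S (fun l q => ‖Λ.g l q‖)]
  refine sum_le_sum fun d hd => ?_
  rw [small_absG]
  refine prod_le_prod (fun l _ => prod_nonneg fun q _ => norm_nonneg _) fun l _ => ?_
  have hu : uni d = S := (mem_FamU.1 hd).2.1
  have hdis : Disjoint (b l) (d l) := by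
    refine disjoint_of_subset_left (sub_uni b l) (disjoint_of_subset_right (sub_uni d l) ?_)
    rw [hu]
    exact hS.symm
  rw [prod_union hdis]
  refine mul_le_of_le_one_left (prod_nonneg fun q _ => norm_nonneg _) ?_
  exact prod_le_one (fun q _ => norm_nonneg _) fun q _ => hn l q

theorem small_boundG (D : Dat2 ι κ) (hD : An D) (Λ : LG L ι) {M : ℕ} {Us : Finset (Finset L)}
    {mU : Finset L → ℂ} {N : ℕ → ℂ} (hΛ : Λ.OK D M Us mU N) :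
    ∃ C : ℝ, 0 < C ∧ ∀ (X V : ℕ) (Z : Finset L), 16 ≤ X → 1 ≤ V → V ^ (2 * Fintype.card L) ≤ X →
      Λ.Unl Z → Z ∉ Us → ∑ d ∈ BoxS ι X V Z, ‖FG D Λ d‖ ≤
        C * X * Real.log X ^ (-(1 / (M : ℝ))) * (1 + Real.log V) ^ (Fintype.card L) := by
  classical
  obtain ⟨C1, h1⟩ := hD.cheb
  obtain ⟨C2, h2⟩ := hD.zt
  obtain ⟨B0, hsm⟩ := hΛ.small
  obtain ⟨K, hK, hub⟩ := ub2 h1 h2 M hΛ.two
  obtain ⟨H, hH1, hH⟩ := harm h2
  have hm2 : (2 : ℝ) ≤ M := by exact_mod_cast hΛ.two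
  have hm0 : (0 : ℝ) < M := by linarith
  have hH0 : (0 : ℝ) < H := by linarith
  set B1 : ℝ := (max B0 1) ^ (1 / (M : ℝ)) with hB1
  have hB10 : 0 < B1 := Real.rpow_pos_of_pos (by positivity) _
  refine ⟨4 * (K * B1) * H ^ Fintype.card L, by positivity, fun X V Z hX hV hVX hZ hZ2 => ?_⟩
  have hlogX : 0 ≤ Real.log X := Real.log_natCast_nonneg X
  have hrp : 0 ≤ Real.log X ^ (-(1 / (M : ℝ))) := Real.rpow_nonneg hlogX _
  obtain ⟨ψ, hψ, hψb⟩ := hsm Z hZ hZ2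
  rw [sum_split X V hV Z (fun d => ‖FG D Λ d‖)]
  have key : ∀ b ∈ SmB ι V Z,
      ∑ S ∈ (Sx ι (X / nmf b)).filter (fun S => Disjoint S (uni b)),
        ∑ d ∈ FamU Z S, ‖FG D Λ (fun l => b l ∪ d l)‖ ≤
      4 * (K * B1) * X * Real.log X ^ (-(1 / (M : ℝ))) * ((1 : ℝ) / nmf b) := by
    intro b hb
    have hP1 : 1 ≤ nmf b := one_le_nmf b
    have hPX : nmf b ^ 2 ≤ X := by
      refine le_trans (Nat.pow_le_pow_left (nmf_le_pow hb) 2) ?_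
      rw [← pow_mul, mul_comm]
      exact hVX
    have hδ0 : (0 : ℝ) < 1 / (M : ℝ) := by positivity
    have hδ1 : 1 / (M : ℝ) ≤ 1 := by
      rw [div_le_one hm0]
      linarith
    obtain ⟨hx2, hxX, hlog⟩ := div_log X (nmf b) (1 / (M : ℝ)) hX hP1 hPX hδ0 hδ1
    have hw : ∀ q : ι, 0 ≤ (fun q : ι => ∑ l ∈ Z, ‖Λ.g l q‖) q ∧
        (fun q : ι => ∑ l ∈ Z, ‖Λ.g l q‖) q ≤ 1 ∧
        (fun q : ι => ∑ l ∈ Z, ‖Λ.g l q‖) q ≤ ((M - 1 : ℝ) + ψ q) / M := by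
      intro q
      exact ⟨sum_nonneg fun l _ => norm_nonneg _, (hψb q).1, (hψb q).2⟩
    have hu := hub ψ B0 hψ (fun q => ∑ l ∈ Z, ‖Λ.g l q‖) hw (X / nmf b) hx2
    have hBB : B0 ^ (1 / (M : ℝ)) ≤ B1 := by
      rw [hB1]
      have hB01 : 1 ≤ B0 := hψ.hB
      exact Real.rpow_le_rpow (by linarith) (le_max_left _ _) hδ0.le
    have hXn : (0 : ℝ) ≤ ((X / nmf b : ℕ) : ℝ) := Nat.cast_nonneg _
    have hlr : 0 ≤ Real.log ((X / nmf b : ℕ) : ℝ) ^ (-(1 / (M : ℝ))) :=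
      Real.rpow_nonneg (Real.log_natCast_nonneg _) _
    calc ∑ S ∈ (Sx ι (X / nmf b)).filter (fun S => Disjoint S (uni b)),
          ∑ d ∈ FamU Z S, ‖FG D Λ (fun l => b l ∪ d l)‖
        ≤ ∑ S ∈ (Sx ι (X / nmf b)).filter (fun S => Disjoint S (uni b)),
          ∏ q ∈ S, ∑ l ∈ Z, ‖Λ.g l q‖ :=
          sum_le_sum fun S hS => small_innerG D Λ hΛ.nrm Z S b (mem_filter.1 hS).2
      _ ≤ ∑ S ∈ Sx ι (X / nmf b), ∏ q ∈ S, ∑ l ∈ Z, ‖Λ.g l q‖ :=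
          sum_le_sum_of_subset_of_nonneg (filter_subset _ _)
            fun S _ _ => prod_nonneg fun q _ => (hw q).1
      _ ≤ K * ((X / nmf b : ℕ) : ℝ) * Real.log ((X / nmf b : ℕ) : ℝ) ^ (-(1 / (M : ℝ))) *
            B0 ^ (1 / (M : ℝ)) := hu
      _ ≤ K * ((X / nmf b : ℕ) : ℝ) * Real.log ((X / nmf b : ℕ) : ℝ) ^ (-(1 / (M : ℝ))) * B1 :=
          mul_le_mul_of_nonneg_left hBB (by positivity)
      _ = (K * B1) * ((X / nmf b : ℕ) : ℝ) * Real.log ((X / nmf b : ℕ) : ℝ) ^ (-(1 / (M : ℝ))) := by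
          ring
      _ ≤ (K * B1) * (X * (1 / nmf b)) * (4 * Real.log X ^ (-(1 / (M : ℝ)))) := by
          refine mul_le_mul ?_ hlog hlr (by positivity)
          exact mul_le_mul_of_nonneg_left hxX (by positivity)
      _ = 4 * (K * B1) * X * Real.log X ^ (-(1 / (M : ℝ))) * ((1 : ℝ) / nmf b) := by ring
  calc ∑ b ∈ SmB ι V Z, ∑ S ∈ (Sx ι (X / nmf b)).filter (fun S => Disjoint S (uni b)),
        ∑ d ∈ FamU Z S, ‖FG D Λ (fun l => b l ∪ d l)‖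
      ≤ ∑ b ∈ SmB ι V Z, 4 * (K * B1) * X * Real.log X ^ (-(1 / (M : ℝ))) * ((1 : ℝ) / nmf b) :=
        sum_le_sum key
    _ = 4 * (K * B1) * X * Real.log X ^ (-(1 / (M : ℝ))) * ∑ b ∈ SmB ι V Z, (1 : ℝ) / nmf b := by
        rw [mul_sum]
    _ ≤ 4 * (K * B1) * X * Real.log X ^ (-(1 / (M : ℝ))) *
          (H ^ Fintype.card L * (1 + Real.log V) ^ Fintype.card L) :=
        mul_le_mul_of_nonneg_left (harm_fam hH1 hH V hV Z) (by positivity)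
    _ = 4 * (K * B1) * H ^ Fintype.card L * X * Real.log X ^ (-(1 / (M : ℝ))) *
          (1 + Real.log V) ^ (Fintype.card L) := by ring

end

end Pool.Agent.Lib.MP_1a91b9_ntV
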