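import Pool.Agent.Lib.MP_1a91b9_ntV.D.MatN

/-!
# MP_1a91b9_nt (twists over other fields), part D: one-sided exponents

With the twisted reciprocity law `s p q + s q p = al p * al q` the exponent of a labelling is the
exponent for the one-sided system `Phi1` plus a quadratic function of the numbers `n l` (the sum of
`al` over the primes with the label `l`); the sign of this function is expanded in characters
(`four`).
-/

set_option autoImplicit false
set_option linter.unusedSectionVars false

namespace Pool.Agent.Lib.MP_1a91b9_ntV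

open Finset Pool.Agent.Lib.MP_1a91b9_ntH Pool.Agent.Lib.MP_1a91b9_ntQ
open Pool.Agent.Lib.MP_1a91b9_ntQ.Da

noncomputable section

variable {L : Type} [Fintype L] [DecidableEq L]

/-- A numbering of the labels. -/
def ord (l : L) : ℕ := (Fintype.equivFin L l : ℕ)

theorem ord_inj {l m : L} (h : ord l = ord m) : l = m :=
  (Fintype.equivFin L).injective (Fin.ext h)

/-- The one-sided system. -/
def Phi1 (Phi : L → L → ZMod 2) (l m : L) : ZMod 2 :=
  if ord l < ord m then Phi l m + Phi m l else 0

theorem Phi1_self (Phi : L → L → ZMod 2) (l : L) : Phi1 Phi l l = 0 := if_neg (lt_irrefl _)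

theorem Phi1_os (Phi : L → L → ZMod 2) (l m : L) : Phi1 Phi l m = 0 ∨ Phi1 Phi m l = 0 := by
  unfold Phi1
  by_cases h : ord l < ord m
  · exact Or.inr (if_neg (not_lt.2 h.le))
  · exact Or.inl (if_neg h)

theorem Phi1_lk (Phi : L → L → ZMod 2) (l m : L) :
    Phi1 Phi l m + Phi1 Phi m l = Phi l m + Phi m l := by
  unfold Phi1
  rcases lt_trichotomy (ord l) (ord m) with h | h | h
  · rw [if_pos h, if_neg (not_lt.2 h.le), add_zero]
  · have e := ord_inj h
    subst e
    rw [if_neg (lt_irrefl _), add_zero, z2_add_self]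
  · rw [if_neg (not_lt.2 h.le), if_pos h, zero_add, add_comm]

/-- The exponent of the sign of reciprocity. -/
def FRc (Phi : L → L → ZMod 2) (n : L → ZMod 2) : ZMod 2 :=
  ∑ a, ∑ b, if ord a < ord b then Phi b a * (n a * n b) else 0

/-- The sum of `al` over the primes with the label `a`. -/
def nl {ι : Type} (al : ι → ZMod 2) (S : Finset ι) (f : S → L) (a : L) : ZMod 2 :=
  ∑ j : S, if f j = a then al j else 0

variable {ι : Type} [DecidableEq ι] {κ : Type}

omit [DecidableEq ι] in
theorem sum_nl (al : ι → ZMod 2) (S : Finset ι) (f : S → L) (c : L → ZMod 2) :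
    ∑ a, c a * nl al S f a = ∑ j : S, c (f j) * al j := by
  unfold nl
  simp only [mul_sum]
  rw [sum_comm]
  refine sum_congr rfl fun j _ => ?_
  simp

omit [DecidableEq ι] in
theorem FRc_nl (Phi : L → L → ZMod 2) (al : ι → ZMod 2) (S : Finset ι) (f : S → L) :
    FRc Phi (nl al S f) =
      ∑ j : S, ∑ l : S, if ord (f j) < ord (f l) then Phi (f l) (f j) * (al j * al l) else 0 := by
  have h1 : ∀ a b : L, (if ord a < ord b then Phi b a * (nl al S f a * nl al S f b) else 0) =
      (if ord a < ord b then Phi b a else 0) * nl al S f b * nl al S f a := by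
    intro a b
    split_ifs <;> ring
  unfold FRc
  simp only [h1]
  have h2 : ∀ a : L, ∑ b, (if ord a < ord b then Phi b a else 0) * nl al S f b * nl al S f a =
      (∑ l : S, (if ord a < ord (f l) then Phi (f l) a else 0) * al l) * nl al S f a := by
    intro a
    rw [← sum_mul, sum_nl al S f (fun b => if ord a < ord b then Phi b a else 0)]
  simp only [h2]
  rw [sum_nl al S f (fun a => ∑ l : S, (if ord a < ord (f l) then Phi (f l) a else 0) * al l)]
  refine sum_congr rfl fun j _ => ?_
  rw [sum_mul]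
  refine sum_congr rfl fun l _ => ?_
  split_ifs <;> ring

theorem exp_one (D : Dat2 ι κ) {al : ι → ZMod 2}
    (hrec : ∀ p q, p ≠ q → D.s p q + D.s q p = al p * al q) (Phi : L → L → ZMod 2)
    (hdiag : ∀ l, Phi l l = 0) (S : Finset ι) (f : S → L) :
    ∑ j : S, ∑ l : S, Phi (f j) (f l) * D.s j l =
      ∑ j : S, ∑ l : S, Phi1 Phi (f j) (f l) * D.s j l + FRc Phi (nl al S f) := by
  have h1 : ∑ j : S, ∑ l : S, Phi (f j) (f l) * D.s j l =
      ∑ j : S, ∑ l : S, (if ord (f j) < ord (f l) then Phi (f j) (f l) * D.s j l else 0) +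
      ∑ j : S, ∑ l : S, (if ord (f l) < ord (f j) then Phi (f j) (f l) * D.s j l else 0) := by
    rw [← sum_add_distrib]
    refine sum_congr rfl fun j _ => ?_
    rw [← sum_add_distrib]
    refine sum_congr rfl fun l _ => ?_
    rcases lt_trichotomy (ord (f j)) (ord (f l)) with h | h | h
    · rw [if_pos h, if_neg (not_lt.2 h.le), add_zero]
    · rw [ord_inj h, hdiag, zero_mul, if_neg (lt_irrefl _), add_zero]
    · rw [if_neg (not_lt.2 h.le), if_pos h, zero_add]
  have h2 : ∑ j : S, ∑ l : S, (if ord (f l) < ord (f j) then Phi (f j) (f l) * D.s j l else 0) =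
      ∑ j : S, ∑ l : S, (if ord (f j) < ord (f l) then Phi (f l) (f j) * D.s l j else 0) :=
    sum_comm
  rw [h1, h2, FRc_nl, ← sum_add_distrib, ← sum_add_distrib]
  refine sum_congr rfl fun j _ => ?_
  rw [← sum_add_distrib, ← sum_add_distrib]
  refine sum_congr rfl fun l _ => ?_
  by_cases h : ord (f j) < ord (f l)
  · have hne : (j : ι) ≠ l := by
      intro e
      have e' : j = l := Subtype.ext e
      rw [e'] at h
      exact lt_irrefl _ h
    have h3 := hrec j l hne
    have h4 : D.s l j = D.s j l + al j * al l := by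
      rw [← h3, ← add_assoc, z2_add_self, zero_add]
    rw [if_pos h, if_pos h, if_pos h, Phi1, if_pos h, h4]
    ring
  · rw [if_neg h, if_neg h, if_neg h, Phi1, if_neg h]
    ring

/-- The Fourier coefficients of the sign of reciprocity. -/
def Fh (Phi : L → L → ZMod 2) (c : L → ZMod 2) : ℂ :=
  (∑ n : L → ZMod 2, e2 (FRc Phi n + ∑ a, c a * n a)) / 2 ^ Fintype.card L

theorem four (Phi : L → L → ZMod 2) (n : L → ZMod 2) :
    e2 (FRc Phi n) = ∑ c : L → ZMod 2, Fh Phi c * e2 (∑ a, c a * n a) := by
  have h2 : (2 : ℂ) ^ Fintype.card L ≠ 0 := pow_ne_zero _ (by norm_num)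
  have h1 : ∀ c : L → ZMod 2, Fh Phi c * e2 (∑ a, c a * n a) =
      (∑ n' : L → ZMod 2, e2 (FRc Phi n') * e2 (c ⬝ᵥ (n' + n))) / 2 ^ Fintype.card L := by
    intro c
    unfold Fh
    rw [div_mul_eq_mul_div, sum_mul]
    congr 1
    refine sum_congr rfl fun n' _ => ?_
    rw [e2_add, mul_assoc, ← e2_add]
    congr 2
    rw [dotProduct_add]
    rfl
  rw [sum_congr rfl fun c _ => h1 c, ← sum_div, sum_comm]
  have h3 : ∀ n' : L → ZMod 2, ∑ c : L → ZMod 2, e2 (FRc Phi n') * e2 (c ⬝ᵥ (n' + n)) =
      if n' = n then e2 (FRc Phi n) * 2 ^ Fintype.card L else 0 := by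
    intro n'
    rw [← mul_sum, sum_dotE]
    have h4 : n' + n = 0 ↔ n' = n := by
      constructor
      · intro h
        funext a
        have := congrFun h a
        have h5 : ∀ x y : ZMod 2, x + y = 0 → x = y := by decide
        exact h5 _ _ this
      · rintro rfl
        funext a
        exact z2_add_self _
    by_cases h : n' = n
    · rw [if_pos (h4.2 h), if_pos h, h]
    · rw [if_neg fun h5 => h (h4.1 h5), if_neg h, mul_zero]
  rw [sum_congr rfl fun n' _ => h3 n', sum_ite_eq', if_pos (mem_univ _), mul_div_cancel_right₀ _ h2]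

end

end Pool.Agent.Lib.MP_1a91b9_ntV
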