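import Pool.Agent.Lib.MP_1a91b9_ntQ.D.MoQ
import Pool.Agent.Lib.MP_1a91b9_ntV.D.Engine
import Pool.Agent.Lib.MP_1a91b9_ntV.D.OneS

/-!
# MP_1a91b9_nt (twists over other fields), part D: the label system of the `k`-th moment

`LN_OK`: the one-sided system with the weights `2 ^ (-k) * (-1) ^ (cc l · a q)` satisfies the
hypotheses of the engine, for symbols with a twisted reciprocity law.
-/

set_option autoImplicit false
set_option linter.unusedSectionVars false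

namespace Pool.Agent.Lib.MP_1a91b9_ntV

open Finset Pool.Agent.Lib.MP_1a91b9_ntH Pool.Agent.Lib.MP_1a91b9_ntQ
open Pool.Agent.Lib.MP_1a91b9_ntQ.Da

noncomputable section

variable {ι : Type} [DecidableEq ι] {κ : Type} [Fintype κ] [DecidableEq κ] {k : ℕ}

/-- The hypotheses on the symbols: twisted reciprocity, Chebyshev, zeta function, bilinear bound,
characters, mean values. -/
structure OKt (D : Dat2 ι κ) [PS ι] (w : κ → ZMod 2) : Prop where
  tw : ∀ p q, p ≠ q → D.s p q + D.s q p = D.dg w p * D.dg w q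
  an : An D
  cb : ∃ C, D.CB C
  mz : ∀ c : κ → ZMod 2, c ≠ 0 → Mz ∅ (fun q => e2 (D.ex1 ∅ c q))

omit [DecidableEq ι] [DecidableEq κ] in
theorem ex1_empty (D : Dat2 ι κ) (c : κ → ZMod 2) (q : ι) : D.ex1 ∅ c q = D.dg c q := by
  unfold Dat2.ex1 Dat2.dg
  rw [sum_empty, add_zero]

omit [DecidableEq ι] [DecidableEq κ] in
theorem dg_add (D : Dat2 ι κ) (c d : κ → ZMod 2) (q : ι) :
    D.dg (c + d) q = D.dg c q + D.dg d q := by
  unfold Dat2.dg
  rw [← sum_add_distrib]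
  exact sum_congr rfl fun j _ => by rw [Pi.add_apply]; ring

omit [DecidableEq ι] [DecidableEq κ] in
theorem dg_smul (D : Dat2 ι κ) (x : ZMod 2) (c : κ → ZMod 2) (q : ι) :
    D.dg (x • c) q = x * D.dg c q := by
  unfold Dat2.dg
  rw [mul_sum]
  exact sum_congr rfl fun j _ => by rw [Pi.smul_apply, smul_eq_mul]; ring

omit [DecidableEq ι] [DecidableEq κ] in
theorem dg_zero (D : Dat2 ι κ) (q : ι) : D.dg 0 q = 0 := by
  unfold Dat2.dg
  exact sum_eq_zero fun j _ => by rw [Pi.zero_apply, zero_mul]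

private theorem v_norm_add (a b : ZMod 2) : ‖e2 a + e2 b‖ ≤ 3 / 2 + sg (a + b) / 2 := by
  have h2 : (1 : ZMod 2) + 1 = 0 := by decide
  have h3 : ‖(1 : ℂ) + 1‖ = 2 := by norm_num
  have h4 : ‖(-1 : ℂ) + -1‖ = 2 := by norm_num
  rcases z2 a with rfl | rfl <;> rcases z2 b with rfl | rfl <;>
    simp only [add_zero, zero_add, h2, sg2_zero, Pool.Agent.Lib.MP_1a91b9_ntQ.sg2_one, e2_zero,
      e2_one, add_neg_cancel,
      neg_add_cancel, norm_zero, h3, h4] <;> norm_num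

private theorem v_norm_sum {L : Type} [DecidableEq L] (U : Finset L) (x : L → ZMod 2) (l l' : L)
    (hl : l ∈ U) (hl' : l' ∈ U) (hne : l ≠ l') :
    ‖∑ k ∈ U, e2 (x k)‖ ≤ ((2 * U.card - 1 : ℝ) + sg (x l + x l')) / 2 := by
  have h1 : l' ∈ U.erase l := mem_erase.2 ⟨hne.symm, hl'⟩
  have e1 : ∑ k ∈ U, e2 (x k) = (e2 (x l) + e2 (x l')) + ∑ k ∈ (U.erase l).erase l', e2 (x k) := by
    rw [← add_sum_erase U _ hl, ← add_sum_erase (U.erase l) _ h1]
    ring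
  have c1 : (((U.erase l).erase l').card : ℝ) = (U.card : ℝ) - 2 := by
    have a1 := card_erase_add_one hl
    have a2 := card_erase_add_one h1
    have a3 : ((U.erase l).erase l').card + 2 = U.card := by omega
    rw [← a3]
    push_cast
    ring
  rw [e1]
  have h2 : ‖∑ k ∈ (U.erase l).erase l', e2 (x k)‖ ≤ (U.card : ℝ) - 2 := by
    refine (norm_sum_le _ _).trans ?_
    rw [← c1]
    simp only [norm_e2, sum_const, nsmul_eq_mul, mul_one]
    exact le_refl _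
  have h3 := v_norm_add (x l) (x l')
  have h4 := norm_add_le (e2 (x l) + e2 (x l')) (∑ k ∈ (U.erase l).erase l', e2 (x k))
  linarith

/-- The label system, with a weight `h` of modulus `1`. -/
def LN (D : Dat2 ι κ) (h : ι → ℂ) (cc : Lab2 k → κ → ZMod 2) : LG (Lab2 k) ι where
  Phi := Phi1 PhiQ
  g := fun l q => h q * (((2 : ℂ) ^ k)⁻¹ * e2 (D.dg (cc l) q))

theorem LN_lk (D : Dat2 ι κ) (h : ι → ℂ) (cc : Lab2 k → κ → ZMod 2) (l m : Lab2 k) :
    (LN D h cc).lk l m = Q2 (l - m) := by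
  show Phi1 PhiQ l m + Phi1 PhiQ m l = _
  rw [Phi1_lk, PhiQ_add]

theorem LN_Unl (D : Dat2 ι κ) (h : ι → ℂ) (cc : Lab2 k → κ → ZMod 2) (U : Finset (Lab2 k)) :
    (LN D h cc).Unl U ↔ Unl2 U := by
  rw [LG.Unl, Unl2]
  simp only [LN_lk]

open Classical in
/-- The maximal unlinked sets. -/
def UsN (k : ℕ) : Finset (Finset (Lab2 k)) := univ.filter fun U => Unl2 U ∧ U.card = 2 ^ k

theorem mem_UsN {U : Finset (Lab2 k)} : U ∈ UsN k ↔ Unl2 U ∧ U.card = 2 ^ k := by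
  classical
  rw [UsN, mem_filter]
  exact ⟨fun h => h.2, fun h => ⟨mem_univ _, h⟩⟩

open Classical in
/-- The mean value. -/
def mN (tr : (κ → ZMod 2) → Prop) (cc : Lab2 k → κ → ZMod 2) (U : Finset (Lab2 k)) : ℂ :=
  if ∃ c1, tr c1 ∧ ∀ l ∈ U, cc l = c1 then 1 else 0

omit [DecidableEq κ] in
theorem norm_gN (D : Dat2 ι κ) {h : ι → ℂ} (hn : ∀ q, ‖h q‖ = 1) (cc : Lab2 k → κ → ZMod 2)
    (l : Lab2 k) (q : ι) : ‖(LN D h cc).g l q‖ = ((2 : ℝ) ^ k)⁻¹ := by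
  show ‖h q * (((2 : ℂ) ^ k)⁻¹ * e2 (D.dg (cc l) q))‖ = _
  rw [norm_mul, norm_mul, hn, one_mul, norm_e2, mul_one, norm_inv, norm_pow, Complex.norm_ofNat]

omit [DecidableEq κ] in
theorem xg_eq (D : Dat2 ι κ) {w : κ → ZMod 2}
    (tw : ∀ p q, p ≠ q → D.s p q + D.s q p = D.dg w p * D.dg w q) (h : ι → ℂ)
    (cc : Lab2 k → κ → ZMod 2)
    (b : Lab2 k → Finset ι) (l : Lab2 k) (q : ι) (hq : q ∉ uni b) :
    xg D (LN D h cc) b l q = ∑ m, Q2 (l - m) * ∑ p ∈ b m, D.s q p +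
      (∑ m, Phi1 PhiQ m l * ∑ p ∈ b m, D.dg w p) * D.dg w q := by
  unfold xg
  rw [sum_mul, ← sum_add_distrib]
  refine sum_congr rfl fun m _ => ?_
  have h1 : D.ss {q} (b m) = ∑ p ∈ b m, D.s q p := sum_singleton _ _
  have h2 : D.ss (b m) {q} = ∑ p ∈ b m, D.s q p + (∑ p ∈ b m, D.dg w p) * D.dg w q := by
    unfold Dat2.ss
    rw [sum_mul, ← sum_add_distrib]
    refine sum_congr rfl fun p hp => ?_
    rw [sum_singleton]
    have hne : p ≠ q := by
      rintro rfl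
      exact hq (mem_uni.2 ⟨m, hp⟩)
    have h3 := tw p q hne
    have h4 : D.s p q = D.s q p + D.dg w p * D.dg w q := by
      rw [← h3, add_comm (D.s p q), ← add_assoc, z2_add_self, zero_add]
    exact h4
  have h3 : Q2 (l - m) = Phi1 PhiQ l m + Phi1 PhiQ m l := by rw [Phi1_lk, PhiQ_add]
  rw [h1, h2, h3]
  show Phi1 PhiQ l m * _ + Phi1 PhiQ m l * _ = _
  ring

/-- The coefficient of the symbol at `p`. -/
def tN (b : Lab2 k → Finset ι) (l l' : Lab2 k) (p : ι) : ZMod 2 :=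
  ∑ m, if p ∈ b m then Q2 (l - m) + Q2 (l' - m) else 0

open Classical in
/-- The primes of the character of a pair of labels. -/
def TN (b : Lab2 k → Finset ι) (l l' : Lab2 k) : Finset ι :=
  (uni b).filter fun p => tN b l l' p ≠ 0

omit [DecidableEq κ] in
theorem sum_TN (D : Dat2 ι κ) (b : Lab2 k → Finset ι) (l l' : Lab2 k) (q : ι) :
    ∑ m, Q2 (l - m) * ∑ p ∈ b m, D.s q p + ∑ m, Q2 (l' - m) * ∑ p ∈ b m, D.s q p =
      ∑ p ∈ TN b l l', D.s q p := by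
  classical
  have h1 : ∑ p ∈ TN b l l', D.s q p = ∑ p ∈ uni b, tN b l l' p * D.s q p := by
    unfold TN
    rw [sum_filter]
    refine sum_congr rfl fun p _ => ?_
    by_cases h : tN b l l' p = 0
    · rw [if_neg (not_not.2 h), h, zero_mul]
    · rw [if_pos h, z2_ne h, one_mul]
  rw [h1]
  unfold tN
  rw [sum_congr rfl fun p _ => sum_mul _ _ _, sum_comm, ← sum_add_distrib]
  refine sum_congr rfl fun m _ => ?_
  rw [← add_mul, mul_sum]
  have h4 : ∀ p ∈ b m, (Q2 (l - m) + Q2 (l' - m)) * D.s q p =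
      (if p ∈ b m then Q2 (l - m) + Q2 (l' - m) else 0) * D.s q p := fun p hp => by rw [if_pos hp]
  rw [sum_congr rfl h4]
  refine sum_subset (sub_uni b m) fun p _ hp2 => ?_
  rw [if_neg hp2, zero_mul]

private theorem ch_abs (D : Dat2 ι κ) (T : Finset ι) (c : κ → ZMod 2) (q : ι) :
    |D.ch T c q| ≤ 1 := by
  unfold Dat2.ch
  split_ifs
  · simp
  · exact (sg2_abs _).le

variable [PS ι]

theorem LN_mid {D : Dat2 ι κ} {w : κ → ZMod 2} (hD : OKt D w) (hk : 1 ≤ k)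
    {h : ι → ℂ} (hn : ∀ q, ‖h q‖ = 1) (cc : Lab2 k → κ → ZMod 2) :
    ∃ C : ℝ, ∀ U ∈ UsN k, ∀ b : Lab2 k → Finset ι, PD b → (∀ l ∈ U, b l = ∅) → uni b ≠ ∅ →
    (∀ l, ∀ q ∈ b l, (LN D h cc).g l q ≠ 0) →
    ∃ ψ : ι → ℝ, SumB ψ ((C * (1 + Real.log (nm (uni b)))) ^ (2 * 2 ^ k)) ∧
      (∀ q, 0 ≤ (((2 * 2 ^ k : ℕ) : ℝ) - 1) + ψ q) ∧ ∀ q, q ∉ uni b →
        ‖HG D (LN D h cc) U b q‖ ≤ 1 ∧
          ‖HG D (LN D h cc) U b q‖ ≤ ((((2 * 2 ^ k : ℕ) : ℝ) - 1) + ψ q) / ((2 * 2 ^ k : ℕ) : ℝ) := by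
  classical
  obtain ⟨C, hC⟩ := hD.cb
  have h2k : (2 : ℝ) ≤ 2 ^ k := by
    calc (2 : ℝ) = 2 ^ 1 := by norm_num
      _ ≤ 2 ^ k := pow_le_pow_right₀ (by norm_num) hk
  refine ⟨|C| + 1, fun U hU b hb hbU hne _ => ?_⟩
  obtain ⟨hU1, hU2⟩ := mem_UsN.1 hU
  obtain ⟨p0, hp0⟩ := nonempty_iff_ne_empty.2 hne
  obtain ⟨m0, hm0⟩ := mem_uni.1 hp0
  have hm0U : m0 ∉ U := fun hm => by
    rw [hbU m0 hm] at hm0
    exact absurd hm0 (notMem_empty _)
  obtain ⟨l, hl, l', hl', hll⟩ : ∃ l ∈ U, ∃ l' ∈ U, Q2 (l - m0) ≠ Q2 (l' - m0) := by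
    have hneU : U.Nonempty := by
      rw [← card_pos, hU2]; positivity
    obtain ⟨l0, hl0⟩ := hneU
    by_contra hcon
    push Not at hcon
    exact hm0U (K2 hU1 hU2 (Q2 (l0 - m0)) fun l hl => hcon l hl l0 hl0)
  have hne' : l ≠ l' := fun e => hll (by rw [e])
  set T := TN b l l' with hT
  set c : κ → ZMod 2 := cc l + cc l' + ((∑ m, Phi1 PhiQ m l * ∑ p ∈ b m, D.dg w p) +
    (∑ m, Phi1 PhiQ m l' * ∑ p ∈ b m, D.dg w p)) • w with hc
  have hTs : T ⊆ uni b := filter_subset _ _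
  have hTne : T ≠ ∅ := by
    refine nonempty_iff_ne_empty.1 ⟨p0, ?_⟩
    rw [hT, TN]
    refine mem_filter.2 ⟨hp0, ?_⟩
    have h1 : tN b l l' p0 = Q2 (l - m0) + Q2 (l' - m0) := by
      unfold tN
      rw [sum_eq_single m0, if_pos hm0]
      · intro m _ hm
        exact if_neg fun h => (disjoint_left.1 (hb m m0 hm)) h hm0
      · intro h
        exact absurd (mem_univ _) h
    rw [h1]
    intro h
    have h5 : ∀ x y : ZMod 2, x + y = 0 → x = y := by decide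
    exact hll (h5 _ _ h)
  have hCT := SumB.of (hC T c (Or.inl hTne))
  have hTn : (1 : ℝ) ≤ nm T := by exact_mod_cast one_le_nm T
  have hlT : 0 ≤ Real.log (nm T) := Real.log_nonneg hTn
  have hlog : Real.log (nm T) ≤ Real.log (nm (uni b)) := by
    refine Real.log_le_log (by linarith) ?_
    exact_mod_cast Pool.Agent.Lib.MP_1a91b9_ntQ.D.nm_mono hTs
  have hch := fun q => abs_le.1 (ch_abs D T c q)
  refine ⟨D.ch T c, hCT.mono ?_, fun q => ?_, fun q hq => ?_⟩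
  · calc C * (1 + Real.log (nm T)) ≤ (|C| + 1) * (1 + Real.log (nm T)) := by
          refine mul_le_mul_of_nonneg_right ?_ (by linarith)
          have := le_abs_self C
          linarith
      _ ≤ (|C| + 1) * (1 + Real.log (nm (uni b))) :=
          mul_le_mul_of_nonneg_left (by linarith) (by positivity)
      _ ≤ ((|C| + 1) * (1 + Real.log (nm (uni b)))) ^ (2 * 2 ^ k) := by
          refine le_self_pow₀ ?_ (by positivity)
          have h1 : (1 : ℝ) ≤ |C| + 1 := by linarith [abs_nonneg C]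
          have h2 : (1 : ℝ) ≤ 1 + Real.log (nm (uni b)) := by linarith
          nlinarith
  · have := (hch q).1
    push_cast
    linarith
  · -- the bound
    have hx : ∀ l ∈ U, (LN D h cc).g l q * e2 (xg D (LN D h cc) b l q) =
        h q * ((2 : ℂ) ^ k)⁻¹ * e2 (D.dg (cc l) q + xg D (LN D h cc) b l q) := by
      intro l _
      rw [e2_add]
      show h q * (((2 : ℂ) ^ k)⁻¹ * e2 (D.dg (cc l) q)) * e2 (xg D (LN D h cc) b l q) = _
      ring
    have hH : HG D (LN D h cc) U b q = h q * ((2 : ℂ) ^ k)⁻¹ *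
        ∑ l ∈ U, e2 (D.dg (cc l) q + xg D (LN D h cc) b l q) := by
      unfold HG
      rw [sum_congr rfl hx, mul_sum]
    have hTq : q ∉ T := fun h => hq (hTs h)
    have hsg : sg ((D.dg (cc l) q + xg D (LN D h cc) b l q) +
        (D.dg (cc l') q + xg D (LN D h cc) b l' q)) = D.ch T c q := by
      unfold Dat2.ch
      rw [if_neg hTq]
      congr 1
      have h1 : D.ex1 T c q = D.dg c q + ∑ p ∈ T, D.s q p := rfl
      rw [h1, hT, ← sum_TN D b l l' q, hc, dg_add, dg_add, dg_smul, xg_eq D hD.tw h cc b l q hq,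
        xg_eq D hD.tw h cc b l' q hq]
      ring
    have hns := v_norm_sum U (fun l => D.dg (cc l) q + xg D (LN D h cc) b l q) l l' hl hl' hne'
    rw [hsg, hU2] at hns
    have hnH : ‖HG D (LN D h cc) U b q‖ ≤ ((2 : ℝ) ^ k)⁻¹ *
        (((2 * ((2 ^ k : ℕ) : ℝ) - 1) + D.ch T c q) / 2) := by
      rw [hH, norm_mul, norm_mul, hn, one_mul, norm_inv, norm_pow, Complex.norm_ofNat]
      exact mul_le_mul_of_nonneg_left hns (by positivity)
    have h2k0 : (2 : ℝ) ^ k ≠ 0 := by positivity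
    have e1 : ((2 : ℝ) ^ k)⁻¹ * (((2 * ((2 ^ k : ℕ) : ℝ) - 1) + D.ch T c q) / 2) =
        ((((2 * 2 ^ k : ℕ) : ℝ) - 1) + D.ch T c q) / ((2 * 2 ^ k : ℕ) : ℝ) := by
      push_cast
      field_simp
    rw [e1] at hnH
    refine ⟨hnH.trans ?_, hnH⟩
    have hpos : (0 : ℝ) < ((2 * 2 ^ k : ℕ) : ℝ) := by
      push_cast
      linarith
    rw [div_le_one hpos]
    have := (hch q).2
    linarith

private theorem v_small (δ K B ε : ℝ) (hδ : 0 < δ) (hK : 0 < K) (hB : 1 ≤ B) (hε : 0 < ε) :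
    ∃ X₀ : ℕ, ∀ X : ℕ, X₀ ≤ X → K * X * Real.log X ^ (-δ) * B ^ δ ≤ ε * X := by
  have h1 : Filter.Tendsto (fun X : ℕ => Real.log (X : ℝ) ^ (-δ)) Filter.atTop (nhds 0) :=
    (tendsto_rpow_neg_atTop hδ).comp
      (Real.tendsto_log_atTop.comp tendsto_natCast_atTop_atTop)
  have hP : 0 < K * B ^ δ := mul_pos hK (Real.rpow_pos_of_pos (by linarith) _)
  have h2 : ∀ᶠ X : ℕ in Filter.atTop, Real.log (X : ℝ) ^ (-δ) < ε / (K * B ^ δ) :=
    h1.eventually (gt_mem_nhds (div_pos hε hP))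
  obtain ⟨X₀, h3⟩ := Filter.eventually_atTop.1 h2
  refine ⟨X₀, fun X hX => ?_⟩
  have h4 := h3 X hX
  rw [lt_div_iff₀ hP] at h4
  have h5 : K * X * Real.log X ^ (-δ) * B ^ δ = (Real.log (X : ℝ) ^ (-δ) * (K * B ^ δ)) * X := by
    ring
  rw [h5]
  exact mul_le_mul_of_nonneg_right h4.le (Nat.cast_nonneg X)

theorem LN_main {D : Dat2 ι κ} {w : κ → ZMod 2} (hD : OKt D w) (hk : 1 ≤ k)
    {h : ι → ℂ} {tr : (κ → ZMod 2) → Prop} (hw : D.Wt ∅ h tr)
    (cc : Lab2 k → κ → ZMod 2) :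
    ∀ U ∈ UsN k, ∀ ε : ℝ, 0 < ε → ∃ X₀ : ℕ, ∀ X : ℕ, X₀ ≤ X →
      ‖∑ S ∈ Sx ι X, ∏ q ∈ S, ∑ l ∈ U, (LN D h cc).g l q - mN tr cc U * ((Sx ι X).card : ℂ)‖ ≤
        ε * X := by
  classical
  have hn := hw.nrm
  intro U hU ε hε
  obtain ⟨hU1, hU2⟩ := mem_UsN.1 hU
  have h2k : (2 : ℝ) ≤ 2 ^ k := by
    calc (2 : ℝ) = 2 ^ 1 := by norm_num
      _ ≤ 2 ^ k := pow_le_pow_right₀ (by norm_num) hk
  have h2k0 : (2 : ℝ) ^ k ≠ 0 := by positivity
  have h2c : (2 : ℂ) ^ k ≠ 0 := pow_ne_zero _ (by norm_num)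
  have hneU : U.Nonempty := by
    rw [← card_pos, hU2]; positivity
  by_cases hB : ∃ l ∈ U, ∃ l' ∈ U, cc l ≠ cc l'
  · obtain ⟨l, hl, l', hl', hll⟩ := hB
    have hmN : mN tr cc U = 0 := if_neg fun ⟨c1, _, h⟩ => hll ((h l hl).trans (h l' hl').symm)
    have hne' : l ≠ l' := fun e => hll (by rw [e])
    set c : κ → ZMod 2 := cc l + cc l' with hc
    have hc0 : c ≠ 0 := by
      intro h
      apply hll
      funext j
      have := congrFun h j
      have h5 : ∀ x y : ZMod 2, x + y = 0 → x = y := by decide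
      exact h5 _ _ this
    obtain ⟨C, hC⟩ := hD.cb
    obtain ⟨C1, hC1⟩ := hD.an.cheb
    obtain ⟨C2, hC2⟩ := hD.an.zt
    have hCB := SumB.of (hC ∅ c (Or.inr hc0))
    have hM2 : 2 ≤ 2 * 2 ^ k := by
      have : 1 ≤ 2 ^ k := Nat.one_le_two_pow
      omega
    obtain ⟨K, hK, hub⟩ := ub2 hC1 hC2 (2 * 2 ^ k) hM2
    have hm0 : (0 : ℝ) < ((2 * 2 ^ k : ℕ) : ℝ) := by
      push_cast
      linarith
    obtain ⟨X₀, hX₀⟩ := v_small (1 / ((2 * 2 ^ k : ℕ) : ℝ)) K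
      (C * (1 + Real.log (nm (∅ : Finset ι)))) ε (by positivity) hK hCB.hB hε
    refine ⟨max X₀ 2, fun X hX => ?_⟩
    rw [hmN, zero_mul, sub_zero]
    have hH : ∀ q, ‖∑ l ∈ U, (LN D h cc).g l q‖ ≤
        ((((2 * 2 ^ k : ℕ) : ℝ) - 1) + D.ch ∅ c q) / ((2 * 2 ^ k : ℕ) : ℝ) := by
      intro q
      have h1 : ∑ l ∈ U, (LN D h cc).g l q =
          h q * (((2 : ℂ) ^ k)⁻¹ * ∑ l ∈ U, e2 (D.dg (cc l) q)) := by
        rw [mul_sum, mul_sum]
        rfl
      have hns := v_norm_sum U (fun l => D.dg (cc l) q) l l' hl hl' hne'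
      have hsg : sg (D.dg (cc l) q + D.dg (cc l') q) = D.ch ∅ c q := by
        unfold Dat2.ch
        rw [if_neg (notMem_empty _), ex1_empty, hc, dg_add]
      rw [hsg, hU2] at hns
      rw [h1, norm_mul, norm_mul, hn, one_mul, norm_inv, norm_pow, Complex.norm_ofNat]
      refine (mul_le_mul_of_nonneg_left hns (by positivity)).trans (le_of_eq ?_)
      push_cast
      field_simp
    have hH1 : ∀ q, ‖∑ l ∈ U, (LN D h cc).g l q‖ ≤ 1 := by
      intro q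
      refine (norm_sum_le _ _).trans ?_
      simp only [norm_gN D hn, sum_const, nsmul_eq_mul, hU2]
      push_cast
      rw [mul_inv_cancel₀ h2k0]
    have h1 : ‖∑ S ∈ Sx ι X, ∏ q ∈ S, ∑ l ∈ U, (LN D h cc).g l q‖ ≤
        ∑ S ∈ Sx ι X, ∏ q ∈ S, ‖∑ l ∈ U, (LN D h cc).g l q‖ := by
      refine (norm_sum_le _ _).trans (sum_le_sum fun S _ => ?_)
      rw [norm_prod]
    have h2 := hub (D.ch ∅ c) _ hCB (fun q => ‖∑ l ∈ U, (LN D h cc).g l q‖)
      (fun q => ⟨norm_nonneg _, hH1 q, hH q⟩) X ((le_max_right _ _).trans hX)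
    have h3 := hX₀ X ((le_max_left _ _).trans hX)
    exact h1.trans (h2.trans h3)
  · push Not at hB
    obtain ⟨l₀, hl₀⟩ := hneU
    have hg : ∀ q, ∑ l ∈ U, (LN D h cc).g l q = h q * e2 (D.ex1 ∅ (cc l₀) q) := by
      intro q
      have h1 : ∀ l ∈ U, (LN D h cc).g l q = h q * (((2 : ℂ) ^ k)⁻¹ * e2 (D.dg (cc l₀) q)) := by
        intro l hl
        show h q * (((2 : ℂ) ^ k)⁻¹ * e2 (D.dg (cc l) q)) = _
        rw [hB l hl l₀ hl₀]
      rw [sum_congr rfl h1, sum_const, hU2, nsmul_eq_mul, ex1_empty]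
      push_cast
      linear_combination (h q * e2 (D.dg (cc l₀) q)) * (mul_inv_cancel₀ h2c)
    simp only [hg]
    by_cases h0 : tr (cc l₀)
    · have hmN : mN tr cc U = 1 := if_pos ⟨cc l₀, h0, fun l hl => hB l hl l₀ hl₀⟩
      refine ⟨0, fun X _ => ?_⟩
      simp only [hw.one _ h0, prod_const_one, sum_const, nsmul_eq_mul, mul_one, hmN,
        one_mul, sub_self, norm_zero]
      positivity
    · have hmN : mN tr cc U = 0 := by
        refine if_neg fun ⟨c1, hc1, h⟩ => h0 ?_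
        rw [h l₀ hl₀]
        exact hc1
      obtain ⟨X₀, hX₀⟩ := hw.mz ∅ (cc l₀) (Subset.refl _) (Or.inr h0) ε hε
      refine ⟨X₀, fun X hX => ?_⟩
      have h1 := hX₀ X hX
      rw [filter_true_of_mem fun S _ => disjoint_empty_right S] at h1
      rw [hmN, zero_mul, sub_zero]
      exact h1

theorem LN_OK {D : Dat2 ι κ} {w : κ → ZMod 2} (hD : OKt D w) (hk : 1 ≤ k)
    {h : ι → ℂ} {tr : (κ → ZMod 2) → Prop} (hw : D.Wt ∅ h tr) (cc : Lab2 k → κ → ZMod 2) :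
    (LN D h cc).OK D (2 * 2 ^ k) (UsN k) (mN tr cc) fun X => ((Sx ι X).card : ℂ) where
  diag := fun l => Phi1_self _ l
  os := fun l m => Phi1_os _ l m
  nrm := fun l q => by
    rw [norm_gN D hw.nrm]
    exact inv_le_one_of_one_le₀ (one_le_pow₀ (by norm_num))
  two := by
    have : 1 ≤ 2 ^ k := Nat.one_le_two_pow
    omega
  unl := fun U hU => (LN_Unl D h cc U).2 (mem_UsN.1 hU).1
  er := fun U hU l hl h => by
    have h1 := (mem_UsN.1 hU).2
    have h2 := (mem_UsN.1 h).2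
    have h3 := card_erase_add_one hl
    omega
  small := by
    refine ⟨1, fun Z hZ hZ2 => ⟨fun _ => 0, SumB.zero, fun q => ?_⟩⟩
    have hZ1 := (LN_Unl D h cc Z).1 hZ
    have h1 := K1 hZ1
    have h2 : Z.card ≠ 2 ^ k := fun h => hZ2 (mem_UsN.2 ⟨hZ1, h⟩)
    have h3 : Z.card + 1 ≤ 2 ^ k := by omega
    have h4 : (Z.card : ℝ) + 1 ≤ 2 ^ k := by exact_mod_cast h3
    have h5 : (0 : ℝ) < 2 ^ k := by positivity
    have e1 : ∑ l ∈ Z, ‖(LN D h cc).g l q‖ = Z.card * ((2 : ℝ) ^ k)⁻¹ := by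
      simp only [norm_gN D hw.nrm, sum_const, nsmul_eq_mul]
    rw [e1]
    constructor
    · rw [← div_eq_mul_inv, div_le_one h5]
      linarith
    · rw [← div_eq_mul_inv, add_zero]
      push_cast
      rw [div_le_div_iff₀ h5 (by linarith)]
      nlinarith
  mid := LN_mid hD hk hw.nrm cc
  main := LN_main hD hk hw cc

end

end Pool.Agent.Lib.MP_1a91b9_ntV
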