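import Pool.Agent.Lib.MP_1a91b9_ntV.D.SysN

/-!
# MP_1a91b9_nt (twists over other fields), part D: the moments in the classes

`momN_cls`: in every class the mean value of the `k`-th power of the size of the kernel is the
constant `TG k P w γ / (2 ^ k) ^ #F`.
-/

set_option autoImplicit false
set_option linter.unusedSectionVars false

namespace Pool.Agent.Lib.MP_1a91b9_ntV

open Finset Pool.Agent.Lib.MP_1a91b9_ntH Pool.Agent.Lib.MP_1a91b9_ntQ
open Pool.Agent.Lib.MP_1a91b9_ntQ.Da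

noncomputable section

variable {ι : Type} [DecidableEq ι] {κ : Type} [Fintype κ] [DecidableEq κ] {k : ℕ}
  {E : Type} [Fintype E] [DecidableEq E] {F : Type} [Fintype F] [DecidableEq F]

/-- The class vector of a label with all the terms. -/
def ccN (P : BD κ E F) (w c0 : κ → ZMod 2) (m : BL k E F) (ce : Lab2 k → ZMod 2)
    (l : Lab2 k) : κ → ZMod 2 := c0 + cN P m l + ce l • w

open Classical in
/-- The indicator of `cc = 0` on `U`. -/
def iN (cc : Lab2 k → κ → ZMod 2) (U : Finset (Lab2 k)) : ℂ := if ∀ l ∈ U, cc l = 0 then 1 else 0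

/-- The main coefficient. -/
def TN0 (k : ℕ) (P : BD κ E F) (w c0 : κ → ZMod 2) : ℂ :=
  ∑ m : BL k E F, ∑ ce : Lab2 k → ZMod 2, e2 (RG P m) * Fh PhiQ ce *
    ∑ U ∈ UsN k, iN (ccN P w c0 m ce) U

open Classical in
theorem sum_iN (tr : (κ → ZMod 2) → Prop) (P : BD κ E F) (w : κ → ZMod 2) (m : BL k E F)
    (ce : Lab2 k → ZMod 2) {U : Finset (Lab2 k)} (hU : U ∈ UsN k) :
    ∑ c0 ∈ univ.filter tr, iN (ccN P w c0 m ce) U = mN tr (ccN P w 0 m ce) U := by
  have hneU : U.Nonempty := by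
    rw [← card_pos, (mem_UsN.1 hU).2]; positivity
  obtain ⟨l0, hl0⟩ := hneU
  have h5 : ∀ x y : ZMod 2, x + y = 0 ↔ y = x := by decide
  have key : ∀ c0, (∀ l ∈ U, ccN P w c0 m ce l = 0) ↔ ∀ l ∈ U, ccN P w 0 m ce l = c0 := by
    intro c0
    refine forall_congr' fun l => forall_congr' fun _ => ?_
    unfold ccN
    constructor
    · intro h
      funext j
      have := congrFun h j
      simp only [Pi.add_apply, Pi.zero_apply, zero_add] at this ⊢
      rw [add_assoc] at this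
      exact (h5 _ _).1 this
    · intro h
      funext j
      have := congrFun h j
      simp only [Pi.add_apply, Pi.zero_apply, zero_add] at this ⊢
      rw [add_assoc]
      exact (h5 _ _).2 this
  unfold iN mN
  simp only [key]
  by_cases h : ∃ c1, tr c1 ∧ ∀ l ∈ U, ccN P w 0 m ce l = c1
  · rw [if_pos h]
    obtain ⟨c1, h1, h2⟩ := h
    rw [sum_eq_single_of_mem c1 (mem_filter.2 ⟨mem_univ _, h1⟩), if_pos h2]
    intro c0 _ hne
    refine if_neg fun h3 => hne ?_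
    rw [← h3 l0 hl0, ← h2 l0 hl0]
  · rw [if_neg h]
    refine sum_eq_zero fun c0 hc0 => if_neg fun h3 => h ⟨c0, (mem_filter.1 hc0).2, h3⟩

theorem norm_Fh_le {L : Type} [Fintype L] [DecidableEq L] (Phi : L → L → ZMod 2)
    (c : L → ZMod 2) : ‖Fh Phi c‖ ≤ 1 := by
  unfold Fh
  rw [norm_div, norm_pow, Complex.norm_ofNat, div_le_one (by positivity)]
  refine (norm_sum_le _ _).trans ?_
  simp only [norm_e2, sum_const, card_univ, Fintype.card_fun, ZMod.card, nsmul_eq_mul, mul_one]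
  push_cast
  exact le_refl _

variable [PS ι]

/-- The weighted moment. -/
def MoN (D : Dat2 ι κ) (P : BD κ E F) (k : ℕ) (h : ι → ℂ) (X : ℕ) : ℂ :=
  ∑ S ∈ Sx ι X, (∏ q ∈ S, h q) * (kM D P S : ℂ) ^ k

theorem MoN_eq (D : Dat2 ι κ) {w : κ → ZMod 2}
    (tw : ∀ p q, p ≠ q → D.s p q + D.s q p = D.dg w p * D.dg w q) (P : BD κ E F) (k : ℕ)
    (h : ι → ℂ) (X : ℕ) :
    MoN D P k h X * (2 ^ k) ^ Fintype.card F =
      ∑ m : BL k E F, ∑ ce : Lab2 k → ZMod 2, e2 (RG P m) * Fh PhiQ ce *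
        ∑ S ∈ Sx ι X, ∑ f : S → Lab2 k, (∏ j : S, (LN D h (ccN P w 0 m ce)).g (f j) j) *
          e2 (∑ j : S, ∑ l : S, (LN D h (ccN P w 0 m ce)).Phi (f j) (f l) * D.s j l) := by
  have hk : ((2 : ℂ) ^ k) ≠ 0 := pow_ne_zero _ (by norm_num)
  have h1 : ∀ S ∈ Sx ι X, (∏ q ∈ S, h q) * (kM D P S : ℂ) ^ k *
      (2 ^ k) ^ Fintype.card F =
      ∑ m : BL k E F, ∑ ce : Lab2 k → ZMod 2, e2 (RG P m) * Fh PhiQ ce *
        ∑ f : S → Lab2 k, (∏ j : S, (LN D h (ccN P w 0 m ce)).g (f j) j) *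
          e2 (∑ j : S, ∑ l : S, (LN D h (ccN P w 0 m ce)).Phi (f j) (f l) * D.s j l) := by
    intro S _
    have h3 := kM_pow_mul (k := k) D P S
    have h5 : ((2 ^ k : ℂ)⁻¹) ^ S.card * (2 ^ k) ^ S.card = 1 := by
      rw [← mul_pow, inv_mul_cancel₀ hk, one_pow]
    have h4 : (∏ q ∈ S, h q) * (kM D P S : ℂ) ^ k * (2 ^ k) ^ Fintype.card F =
        ((2 ^ k : ℂ)⁻¹) ^ S.card * (∏ q ∈ S, h q) *
          ((kM D P S : ℂ) ^ k * (2 ^ k) ^ (S.card + Fintype.card F)) := by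
      rw [pow_add]
      linear_combination (-((∏ q ∈ S, h q)) * (kM D P S : ℂ) ^ k *
        (2 ^ k) ^ Fintype.card F) * h5
    rw [h4, h3, mul_sum]
    refine sum_congr rfl fun m _ => ?_
    have h6 : ∀ f : S → Lab2 k,
        e2 (∑ j : S, D.dg (cN P m (f j)) j + ∑ j : S, ∑ l : S, PhiQ (f j) (f l) * D.s j l) =
        ∑ ce : Lab2 k → ZMod 2, Fh PhiQ ce * (e2 (∑ j : S, D.dg (cN P m (f j)) j) *
          e2 (∑ j : S, ce (f j) * D.dg w j) *
          e2 (∑ j : S, ∑ l : S, Phi1 PhiQ (f j) (f l) * D.s j l)) := by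
      intro f
      rw [exp_one D tw PhiQ PhiQ_self S f, e2_add, e2_add, four, mul_sum, mul_sum]
      refine sum_congr rfl fun ce _ => ?_
      rw [sum_nl]
      ring
    simp only [h6]
    have hswap : ∑ f : S → Lab2 k, ∑ ce : Lab2 k → ZMod 2, Fh PhiQ ce *
        (e2 (∑ j : S, D.dg (cN P m (f j)) j) * e2 (∑ j : S, ce (f j) * D.dg w j) *
          e2 (∑ j : S, ∑ l : S, Phi1 PhiQ (f j) (f l) * D.s j l)) =
      ∑ ce : Lab2 k → ZMod 2, ∑ f : S → Lab2 k, Fh PhiQ ce *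
        (e2 (∑ j : S, D.dg (cN P m (f j)) j) * e2 (∑ j : S, ce (f j) * D.dg w j) *
          e2 (∑ j : S, ∑ l : S, Phi1 PhiQ (f j) (f l) * D.s j l)) := sum_comm
    rw [hswap, mul_sum, mul_sum]
    refine sum_congr rfl fun ce _ => ?_
    rw [← mul_sum]
    have h7 : ∀ f : S → Lab2 k, ∏ j : S, (LN D h (ccN P w 0 m ce)).g (f j) j =
        ((2 ^ k : ℂ)⁻¹) ^ S.card * ((∏ q ∈ S, h q) *
          (e2 (∑ j : S, D.dg (cN P m (f j)) j) * e2 (∑ j : S, ce (f j) * D.dg w j))) := by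
      intro f
      have h8 : ∀ j : S, (LN D h (ccN P w 0 m ce)).g (f j) j = ((2 : ℂ) ^ k)⁻¹ * (h j *
          e2 (D.dg (cN P m (f j)) j + ce (f j) * D.dg w j)) := by
        intro j
        show h j * (((2 : ℂ) ^ k)⁻¹ * e2 (D.dg (ccN P w 0 m ce (f j)) j)) = _
        rw [ccN, dg_add, dg_add, dg_smul, dg_zero, zero_add]
        ring
      rw [prod_congr rfl fun j _ => h8 j, prod_mul_distrib, prod_const, card_univ,
        Fintype.card_coe, prod_mul_distrib, ← e2_sum, sum_add_distrib, e2_add,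
        prod_coe_sort S h]
    have h9 : ∀ f : S → Lab2 k, (∏ j : S, (LN D h (ccN P w 0 m ce)).g (f j) j) *
        e2 (∑ j : S, ∑ l : S, (LN D h (ccN P w 0 m ce)).Phi (f j) (f l) * D.s j l) =
        ((2 ^ k : ℂ)⁻¹) ^ S.card * (∏ q ∈ S, h q) *
          (e2 (∑ j : S, D.dg (cN P m (f j)) j) * e2 (∑ j : S, ce (f j) * D.dg w j) *
          e2 (∑ j : S, ∑ l : S, Phi1 PhiQ (f j) (f l) * D.s j l)) := by
      intro f
      rw [h7 f]
      show ((2 ^ k : ℂ)⁻¹) ^ S.card * ((∏ q ∈ S, h q) *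
          (e2 (∑ j : S, D.dg (cN P m (f j)) j) * e2 (∑ j : S, ce (f j) * D.dg w j))) *
          e2 (∑ j : S, ∑ l : S, Phi1 PhiQ (f j) (f l) * D.s j l) = _
      ring
    rw [sum_congr rfl fun f _ => h9 f, ← mul_sum]
    ring
  rw [MoN, sum_mul, sum_congr rfl h1, sum_comm]
  refine sum_congr rfl fun m _ => ?_
  rw [sum_comm]
  exact sum_congr rfl fun ce _ => (mul_sum _ _ _).symm

open Classical in
/-- The weighted moments. -/
theorem MoN_lim {D : Dat2 ι κ} {w : κ → ZMod 2} (hD : OKt D w) {h : ι → ℂ}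
    {tr : (κ → ZMod 2) → Prop} (hw : D.Wt ∅ h tr) (P : BD κ E F) {k : ℕ}
    (hk : 1 ≤ k) (ε : ℝ) (hε : 0 < ε) : ∃ X₀ : ℕ, ∀ X : ℕ, X₀ ≤ X →
    ‖MoN D P k h X * (2 ^ k) ^ Fintype.card F -
      (∑ c0 ∈ univ.filter tr, TN0 k P w c0) * ((Sx ι X).card : ℂ)‖ ≤ ε * X := by
  have hN : (0 : ℝ) < Fintype.card (BL k E F × (Lab2 k → ZMod 2)) := by
    exact_mod_cast Fintype.card_pos
  set ε' : ℝ := ε / Fintype.card (BL k E F × (Lab2 k → ZMod 2)) with hε'
  have hε0 : 0 < ε' := by positivity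
  choose X0 h0 using fun p : BL k E F × (Lab2 k → ZMod 2) =>
    engineG D hD.an (LN D h (ccN P w 0 p.1 p.2)) (LN_OK hD hk hw (ccN P w 0 p.1 p.2)) ε' hε0
  refine ⟨∑ p, X0 p, fun X hX => ?_⟩
  have hXt : ∀ p, X0 p ≤ X := fun p =>
    (single_le_sum (fun _ _ => Nat.zero_le _) (mem_univ p)).trans hX
  have hT : ∑ c0 ∈ univ.filter tr, TN0 k P w c0 =
      ∑ m : BL k E F, ∑ ce : Lab2 k → ZMod 2, e2 (RG P m) * Fh PhiQ ce *
        ∑ U ∈ UsN k, mN tr (ccN P w 0 m ce) U := by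
    unfold TN0
    rw [sum_comm]
    refine sum_congr rfl fun m _ => ?_
    rw [sum_comm]
    refine sum_congr rfl fun ce _ => ?_
    rw [← mul_sum, sum_comm]
    congr 1
    exact sum_congr rfl fun U hU => sum_iN tr P w m ce hU
  rw [MoN_eq D hD.tw P k h X, hT, ← Fintype.sum_prod_type',
    ← Fintype.sum_prod_type' (f := fun (m : BL k E F) (ce : Lab2 k → ZMod 2) =>
      e2 (RG P m) * Fh PhiQ ce * ∑ U ∈ UsN k, mN tr (ccN P w 0 m ce) U), sum_mul,
    ← sum_sub_distrib]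
  calc _ ≤ ∑ p : BL k E F × (Lab2 k → ZMod 2), ε' * X := by
        refine (norm_sum_le _ _).trans (sum_le_sum fun p _ => ?_)
        have h2 := h0 p X (hXt p)
        rw [mul_assoc (e2 (RG P p.1) * Fh PhiQ p.2), ← mul_sub, norm_mul, norm_mul, norm_e2,
          one_mul]
        have h3 := norm_Fh_le (PhiQ (k := k)) p.2
        calc _ ≤ 1 * _ := mul_le_mul_of_nonneg_right h3 (norm_nonneg _)
          _ ≤ _ := by
            rw [one_mul]
            exact h2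
    _ = ε * X := by
        rw [sum_const, card_univ, nsmul_eq_mul, hε']
        field_simp

omit [DecidableEq κ] in
theorem ex1_e2 (D : Dat2 ι κ) (c : κ → ZMod 2) (q : ι) : e2 (D.ex1 ∅ c q) = e2 (D.dg c q) := by
  rw [ex1_empty]

/-- The weight of a class character. -/
theorem wt_dg {D : Dat2 ι κ} {w : κ → ZMod 2} (hD : OKt D w) (c0 : κ → ZMod 2) :
    D.Wt ∅ (fun q => e2 (D.dg c0 q)) (fun c => c = c0) where
  nrm := fun q => norm_e2 _
  one := fun c hc q => by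
    rw [ex1_empty, hc, e2_mul_self]
  mz := fun T c hT h0 => by
    have hT0 : T = ∅ := subset_empty.1 hT
    subst hT0
    have h1 : c ≠ c0 := h0.resolve_left fun h => h rfl
    have h2 : c0 + c ≠ 0 := by
      intro h
      apply h1
      funext j
      have h3 := congrFun h j
      have h5 : ∀ x y : ZMod 2, x + y = 0 → y = x := by decide
      exact h5 _ _ h3
    have h3 := hD.mz (c0 + c) h2
    have h4 : (fun q => e2 (D.dg c0 q) * e2 (D.ex1 ∅ c q)) = fun q => e2 (D.ex1 ∅ (c0 + c) q) := by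
      funext q
      rw [ex1_empty, ex1_empty, dg_add, e2_add]
    rw [h4]
    exact h3

/-- The class of a squarefree integer. -/
def clN (D : Dat2 ι κ) (S : Finset ι) (j : κ) : ZMod 2 := ∑ q ∈ S, D.a q j

omit [DecidableEq ι] [DecidableEq κ] [PS ι] in
theorem sum_dg (D : Dat2 ι κ) (c : κ → ZMod 2) (S : Finset ι) :
    ∑ q ∈ S, D.dg c q = c ⬝ᵥ clN D S := by
  unfold Dat2.dg clN dotProduct
  rw [sum_comm]
  exact sum_congr rfl fun j _ => (mul_sum _ _ _).symm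

/-- The squarefree integers of the class `γ`. -/
def SGN (D : Dat2 ι κ) (γ : κ → ZMod 2) (X : ℕ) : Finset (Finset ι) :=
  (Sx ι X).filter fun S => clN D S = γ

theorem sum_SGN (D : Dat2 ι κ) (γ : κ → ZMod 2) (X : ℕ) (G : Finset ι → ℂ) :
    (∑ S ∈ SGN D γ X, G S) * 2 ^ Fintype.card κ =
      ∑ c0 : κ → ZMod 2, e2 (c0 ⬝ᵥ γ) * ∑ S ∈ Sx ι X, e2 (∑ q ∈ S, D.dg c0 q) * G S := by
  have h1 : ∀ c0 : κ → ZMod 2, e2 (c0 ⬝ᵥ γ) * ∑ S ∈ Sx ι X, e2 (∑ q ∈ S, D.dg c0 q) * G S =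
      ∑ S ∈ Sx ι X, e2 (c0 ⬝ᵥ (γ + clN D S)) * G S := by
    intro c0
    rw [mul_sum]
    refine sum_congr rfl fun S _ => ?_
    rw [sum_dg, dotProduct_add, e2_add]
    ring
  rw [sum_congr rfl fun c0 _ => h1 c0, sum_comm, SGN, sum_filter, sum_mul]
  refine sum_congr rfl fun S _ => ?_
  rw [← sum_mul, sum_dotE]
  by_cases h : clN D S = γ
  · have h2 : γ + clN D S = 0 := by
      rw [h]
      funext j
      exact z2_add_self _
    rw [if_pos h, if_pos h2]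
    ring
  · have h2 : γ + clN D S ≠ 0 := by
      intro h3
      apply h
      funext j
      have h4 := congrFun h3 j
      have h5 : ∀ x y : ZMod 2, x + y = 0 → y = x := by decide
      exact h5 _ _ h4
    rw [if_neg h, if_neg h2, zero_mul, zero_mul]

/-- The main coefficient of a class. -/
def TG (k : ℕ) (P : BD κ E F) (w γ : κ → ZMod 2) : ℂ :=
  ∑ c0 : κ → ZMod 2, e2 (c0 ⬝ᵥ γ) * TN0 k P w c0

/-- The number of the squarefree integers of a class. -/
theorem card_SGN {D : Dat2 ι κ} {w : κ → ZMod 2} (hD : OKt D w) (γ : κ → ZMod 2) (ε : ℝ)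
    (hε : 0 < ε) : ∃ X₀ : ℕ, ∀ X : ℕ, X₀ ≤ X →
      ‖((SGN D γ X).card : ℂ) * 2 ^ Fintype.card κ - ((Sx ι X).card : ℂ)‖ ≤ ε * X := by
  have hN : (0 : ℝ) < Fintype.card (κ → ZMod 2) := by exact_mod_cast Fintype.card_pos
  have key : ∀ c0 : κ → ZMod 2, ∃ X₀ : ℕ, ∀ X : ℕ, X₀ ≤ X → c0 ≠ 0 →
      ‖∑ S ∈ Sx ι X, e2 (∑ q ∈ S, D.dg c0 q)‖ ≤ ε / Fintype.card (κ → ZMod 2) * X := by
    intro c0
    by_cases h : c0 = 0
    · exact ⟨0, fun X _ hc => absurd h hc⟩
    · obtain ⟨X0, h0⟩ := hD.mz c0 h (ε / Fintype.card (κ → ZMod 2)) (by positivity)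
      refine ⟨X0, fun X hX _ => ?_⟩
      have h1 := h0 X hX
      rw [filter_true_of_mem fun S _ => disjoint_empty_right S] at h1
      simp only [ex1_empty, ← e2_sum] at h1
      exact h1
  choose X0 h0 using key
  refine ⟨∑ c, X0 c, fun X hX => ?_⟩
  have hXt : ∀ c, X0 c ≤ X := fun c =>
    (single_le_sum (fun _ _ => Nat.zero_le _) (mem_univ c)).trans hX
  have h1 := sum_SGN D γ X fun _ => 1
  simp only [sum_const, nsmul_eq_mul, mul_one] at h1
  rw [h1, ← add_sum_erase univ _ (mem_univ (0 : κ → ZMod 2))]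
  have h2 : e2 ((0 : κ → ZMod 2) ⬝ᵥ γ) * ∑ S ∈ Sx ι X, e2 (∑ q ∈ S, D.dg 0 q) =
      ((Sx ι X).card : ℂ) := by
    simp only [zero_dotProduct, dg_zero, sum_const_zero, e2_zero, sum_const, nsmul_eq_mul,
      mul_one, one_mul]
  rw [h2, add_sub_cancel_left]
  calc _ ≤ ∑ c ∈ univ.erase (0 : κ → ZMod 2), ε / Fintype.card (κ → ZMod 2) * X := by
        refine (norm_sum_le _ _).trans (sum_le_sum fun c hc => ?_)
        rw [norm_mul, norm_e2, one_mul]
        exact h0 c X (hXt c) (mem_erase.1 hc).1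
    _ ≤ ∑ c : κ → ZMod 2, ε / Fintype.card (κ → ZMod 2) * X :=
        sum_le_sum_of_subset_of_nonneg (erase_subset _ _) fun c _ _ => by positivity
    _ = ε * X := by
        rw [sum_const, card_univ, nsmul_eq_mul]
        field_simp

/-- **The moments in a class.** -/
theorem momN_cls {D : Dat2 ι κ} {w : κ → ZMod 2} (hD : OKt D w) (P : BD κ E F) {k : ℕ}
    (hk : 1 ≤ k) (γ : κ → ZMod 2) (v : ℂ) (hv : TG k P w γ = v * (2 ^ k) ^ Fintype.card F)
    (ε : ℝ) (hε : 0 < ε) : ∃ X₀ : ℕ, ∀ X : ℕ, X₀ ≤ X →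
      ‖∑ S ∈ SGN D γ X, (kM D P S : ℂ) ^ k - v * ((SGN D γ X).card : ℂ)‖ ≤ ε * X := by
  have hN : (0 : ℝ) < Fintype.card (κ → ZMod 2) := by exact_mod_cast Fintype.card_pos
  have hk0 : ((2 : ℂ) ^ k) ≠ 0 := pow_ne_zero _ (by norm_num)
  have hF0 : (((2 : ℂ) ^ k) ^ Fintype.card F) ≠ 0 := pow_ne_zero _ hk0
  have hκ0 : ((2 : ℂ) ^ Fintype.card κ) ≠ 0 := pow_ne_zero _ (by norm_num)
  have hκ1 : (1 : ℝ) ≤ 2 ^ Fintype.card κ := one_le_pow₀ (by norm_num)
  have hF1 : (1 : ℝ) ≤ (2 ^ k) ^ Fintype.card F := one_le_pow₀ (one_le_pow₀ (by norm_num))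
  choose X1 h1 using fun c0 : κ → ZMod 2 =>
    MoN_lim hD (wt_dg hD c0) P hk (ε / 2 / Fintype.card (κ → ZMod 2)) (by positivity)
  obtain ⟨X2, h2⟩ := card_SGN hD γ (ε / 2 / (‖v‖ + 1)) (by positivity)
  refine ⟨max (∑ c, X1 c) X2, fun X hX => ?_⟩
  have hXt : ∀ c, X1 c ≤ X := fun c =>
    (single_le_sum (fun _ _ => Nat.zero_le _) (mem_univ c)).trans ((le_max_left _ _).trans hX)
  have h3 := h2 X ((le_max_right _ _).trans hX)
  have hXr : (0 : ℝ) ≤ X := Nat.cast_nonneg X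
  -- the sum over the class, multiplied by the two powers
  have e1 : (∑ S ∈ SGN D γ X, (kM D P S : ℂ) ^ k) * 2 ^ Fintype.card κ *
      (2 ^ k) ^ Fintype.card F = ∑ c0 : κ → ZMod 2, e2 (c0 ⬝ᵥ γ) *
        (MoN D P k (fun q => e2 (D.dg c0 q)) X * (2 ^ k) ^ Fintype.card F) := by
    rw [sum_SGN D γ X fun S => (kM D P S : ℂ) ^ k, sum_mul]
    refine sum_congr rfl fun c0 _ => ?_
    rw [MoN]
    simp only [e2_sum]
    ring
  have e2' : ‖(∑ S ∈ SGN D γ X, (kM D P S : ℂ) ^ k) * 2 ^ Fintype.card κ *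
      (2 ^ k) ^ Fintype.card F - TG k P w γ * ((Sx ι X).card : ℂ)‖ ≤ ε / 2 * X := by
    rw [e1, TG, sum_mul, ← sum_sub_distrib]
    calc _ ≤ ∑ c : κ → ZMod 2, ε / 2 / Fintype.card (κ → ZMod 2) * X := by
          refine (norm_sum_le _ _).trans (sum_le_sum fun c _ => ?_)
          rw [mul_assoc (e2 (c ⬝ᵥ γ)), ← mul_sub, norm_mul, norm_e2, one_mul]
          have h9 := h1 c X (hXt c)
          have h10 : (∑ a : κ → ZMod 2,
              @ite ℂ (a = c) (Classical.propDecidable _) (TN0 k P w a) 0) = TN0 k P w c := by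
            rw [Finset.sum_eq_single c]
            · exact if_pos rfl
            · intro b _ hb
              exact if_neg hb
            · intro h
              exact absurd (mem_univ _) h
          rw [sum_filter, h10] at h9
          exact h9
      _ = ε / 2 * X := by
          rw [sum_const, card_univ, nsmul_eq_mul]
          field_simp
  have e3 : ((∑ S ∈ SGN D γ X, (kM D P S : ℂ) ^ k) - v * ((SGN D γ X).card : ℂ)) *
      (2 ^ Fintype.card κ * (2 ^ k) ^ Fintype.card F) =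
      ((∑ S ∈ SGN D γ X, (kM D P S : ℂ) ^ k) * 2 ^ Fintype.card κ *
        (2 ^ k) ^ Fintype.card F - TG k P w γ * ((Sx ι X).card : ℂ)) -
      v * (2 ^ k) ^ Fintype.card F *
        (((SGN D γ X).card : ℂ) * 2 ^ Fintype.card κ - ((Sx ι X).card : ℂ)) := by
    rw [hv]
    ring
  have e4 := congrArg norm e3
  rw [norm_mul, norm_mul, norm_pow, norm_pow, norm_pow, Complex.norm_ofNat] at e4
  have e5 : ‖v * (2 ^ k) ^ Fintype.card F *
        (((SGN D γ X).card : ℂ) * 2 ^ Fintype.card κ - ((Sx ι X).card : ℂ))‖ ≤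
      (2 ^ k) ^ Fintype.card F * (ε / 2 * X) := by
    rw [norm_mul, norm_mul, norm_pow, norm_pow, Complex.norm_ofNat]
    calc ‖v‖ * (2 ^ k) ^ Fintype.card F *
          ‖((SGN D γ X).card : ℂ) * 2 ^ Fintype.card κ - ((Sx ι X).card : ℂ)‖
        ≤ (‖v‖ + 1) * (2 ^ k) ^ Fintype.card F * (ε / 2 / (‖v‖ + 1) * X) := by
          refine mul_le_mul ?_ h3 (norm_nonneg _) (by positivity)
          exact mul_le_mul_of_nonneg_right (by linarith) (by positivity)
      _ = _ := by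
          have : ‖v‖ + 1 ≠ 0 := by positivity
          field_simp
  have e6 := (norm_sub_le _ _).trans (add_le_add e2' e5)
  rw [← e4] at e6
  have e7 : ‖∑ S ∈ SGN D γ X, (kM D P S : ℂ) ^ k - v * ((SGN D γ X).card : ℂ)‖ *
      (1 * (2 ^ k) ^ Fintype.card F) ≤ ε * X * (2 ^ k) ^ Fintype.card F := by
    have h8 : ‖∑ S ∈ SGN D γ X, (kM D P S : ℂ) ^ k - v * ((SGN D γ X).card : ℂ)‖ *
        (1 * (2 ^ k) ^ Fintype.card F) ≤
        ‖∑ S ∈ SGN D γ X, (kM D P S : ℂ) ^ k - v * ((SGN D γ X).card : ℂ)‖ *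
        (2 ^ Fintype.card κ * (2 ^ k) ^ Fintype.card F) := by
      refine mul_le_mul_of_nonneg_left ?_ (norm_nonneg _)
      exact mul_le_mul_of_nonneg_right hκ1 (by positivity)
    refine h8.trans (e6.trans ?_)
    have h9 : ε / 2 * X ≤ ε / 2 * X * (2 ^ k) ^ Fintype.card F :=
      le_mul_of_one_le_right (by positivity) hF1
    linarith
  rw [one_mul] at e7
  exact le_of_mul_le_mul_right e7 (by positivity)

end

end Pool.Agent.Lib.MP_1a91b9_ntV
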