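import Pool.Agent.Lib.MP_1a91b9_ntQ.D.ClsQ
import Pool.Agent.Lib.MP_1a91b9_ntV.D.MomN

/-!
# MP_1a91b9_nt (twists over other fields), part D: the moments in the classes of a finite group

`cls_moment` is the general step: from the moments with the weights `ψ (cl q)` to the moments in the
classes. `momN_G` is the result for the bordered matrices which are not symmetric.
-/

set_option autoImplicit false
set_option linter.unusedSectionVars false

namespace Pool.Agent.Lib.MP_1a91b9_ntV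

open Finset Pool.Agent.Lib.MP_1a91b9_ntH Pool.Agent.Lib.MP_1a91b9_ntQ
open Pool.Agent.Lib.MP_1a91b9_ntQ.Da

noncomputable section

variable {ι : Type} [DecidableEq ι] [PS ι] {κ : Type} [Fintype κ] [DecidableEq κ]
  {G : Type} [AddCommGroup G] [Fintype G]

open Classical in
/-- From the weighted sums to the sums over a class. `K S` is the quantity, `W` the normalisation,
`T c0` the main coefficient of the class character `c0`. -/
theorem cls_moment {D : Dat2 ι κ} (C : Cl2 D G) (h3 : C.H3) (K : Finset ι → ℝ)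
    (T : (κ → ZMod 2) → ℂ) (W : ℝ) (hW1 : 1 ≤ W)
    (hlim : ∀ (h : ι → ℂ) (tr : (κ → ZMod 2) → Prop), D.Wt ∅ h tr → ∀ ε : ℝ, 0 < ε →
      ∃ X₀ : ℕ, ∀ X : ℕ, X₀ ≤ X → ‖(∑ S ∈ Sx ι X, (∏ q ∈ S, h q) * (K S : ℂ)) * W -
        (∑ c0 ∈ univ.filter tr, T c0) * ((Sx ι X).card : ℂ)‖ ≤ ε * X)
    (g : G) (ν : ℝ) (hν : 0 ≤ ν)
    (hc : ∑ c0, e2 (∑ j, c0 j * C.A j g) * T c0 = W * (ν : ℂ))
    (ε : ℝ) (hε : 0 < ε) : ∃ X₀ : ℕ, ∀ X : ℕ, X₀ ≤ X →
      |∑ S ∈ SG C g X, K S - ν * (SG C g X).card| ≤ ε * X := by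
  have hG : (0 : ℝ) < Fintype.card G := Nat.cast_pos.2 Fintype.card_pos
  set ε' : ℝ := ε / (1 + W * ν) with hε'
  have hpos : 0 < ε' := by positivity
  choose X1 h1 using fun ψ : AddChar G ℂ => hlim _ _ (wtG C h3 ψ) ε' hpos
  obtain ⟨X2, h2⟩ := card_SG C h3 g ε' hpos
  refine ⟨∑ ψ, X1 ψ + X2, fun X hX => ?_⟩
  have hX1 : ∀ ψ, X1 ψ ≤ X := fun ψ =>
    (single_le_sum (fun _ _ => Nat.zero_le _) (mem_univ ψ)).trans
      ((Nat.le_add_right _ _).trans hX)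
  have hX2 : X2 ≤ X := (Nat.le_add_left _ _).trans hX
  have h4 := h2 X hX2
  have e1 : ∑ S ∈ SG C g X, (K S : ℂ) =
      (∑ ψ : AddChar G ℂ, ψ (-g) * ∑ S ∈ Sx ι X, (∏ q ∈ S, ψ (C.cl q)) * (K S : ℂ)) /
        Fintype.card G :=
    sum_SG C g X fun S => (K S : ℂ)
  have e2' := sum_trG C g T
  rw [hc] at e2'
  have e3 : (∑ S ∈ SG C g X, (K S : ℂ)) * W -
      W * ν * (ZG C g / Fintype.card G * ((Sx ι X).card : ℂ)) =
      (∑ ψ : AddChar G ℂ, ψ (-g) * ((∑ S ∈ Sx ι X, (∏ q ∈ S, ψ (C.cl q)) * (K S : ℂ)) * W -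
        (∑ c0 ∈ univ.filter (trG C ψ), T c0) * ((Sx ι X).card : ℂ))) / Fintype.card G := by
    have e4 : ∑ ψ : AddChar G ℂ, ψ (-g) * ((∑ S ∈ Sx ι X, (∏ q ∈ S, ψ (C.cl q)) * (K S : ℂ)) *
        W - (∑ c0 ∈ univ.filter (trG C ψ), T c0) * ((Sx ι X).card : ℂ)) =
        (∑ ψ : AddChar G ℂ, ψ (-g) * ∑ S ∈ Sx ι X, (∏ q ∈ S, ψ (C.cl q)) * (K S : ℂ)) * W -
        (∑ ψ : AddChar G ℂ, ψ (-g) * ∑ c0 ∈ univ.filter (trG C ψ), T c0) *
          ((Sx ι X).card : ℂ) := by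
      rw [sum_mul, sum_mul, ← sum_sub_distrib]
      exact sum_congr rfl fun ψ _ => by ring
    rw [e4, e2', e1]
    ring
  have h5 : ‖(∑ S ∈ SG C g X, (K S : ℂ)) * W -
      W * ν * (ZG C g / Fintype.card G * ((Sx ι X).card : ℂ))‖ ≤ ε' * X := by
    rw [e3, norm_div, Complex.norm_natCast, div_le_iff₀ hG]
    refine (norm_sum_le _ _).trans ?_
    have hcard : (Fintype.card (AddChar G ℂ) : ℝ) = Fintype.card G := by
      rw [AddChar.card_eq]
    calc ∑ ψ : AddChar G ℂ, ‖ψ (-g) * ((∑ S ∈ Sx ι X, (∏ q ∈ S, ψ (C.cl q)) * (K S : ℂ)) * W -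
          (∑ c0 ∈ univ.filter (trG C ψ), T c0) * ((Sx ι X).card : ℂ))‖
        ≤ ∑ _ψ : AddChar G ℂ, ε' * X := by
          refine sum_le_sum fun ψ _ => ?_
          rw [norm_mul, AddChar.norm_apply, one_mul]
          exact h1 ψ X (hX1 ψ)
      _ = ε' * X * Fintype.card G := by
          rw [sum_const, card_univ, nsmul_eq_mul, hcard]
          ring
  have h6 : ((∑ S ∈ SG C g X, K S - ν * (SG C g X).card : ℝ) : ℂ) * W =
      ((∑ S ∈ SG C g X, (K S : ℂ)) * W -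
        W * ν * (ZG C g / Fintype.card G * ((Sx ι X).card : ℂ))) -
      W * ν * (((SG C g X).card : ℂ) - ZG C g / Fintype.card G * ((Sx ι X).card : ℂ)) := by
    push_cast
    ring
  have h7 : |∑ S ∈ SG C g X, K S - ν * (SG C g X).card| * W ≤
      ε' * X + W * ν * (ε' * X) := by
    have h8 : |∑ S ∈ SG C g X, K S - ν * (SG C g X).card| * W =
        ‖((∑ S ∈ SG C g X, K S - ν * (SG C g X).card : ℝ) : ℂ) * W‖ := by
      rw [norm_mul, Complex.norm_real, Complex.norm_real, Real.norm_eq_abs, Real.norm_eq_abs,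
        abs_of_pos (by linarith : 0 < W)]
    rw [h8, h6]
    refine (norm_sub_le _ _).trans (add_le_add h5 ?_)
    rw [norm_mul, norm_mul, Complex.norm_real, Complex.norm_real, Real.norm_eq_abs,
      Real.norm_eq_abs, abs_of_pos (by linarith : 0 < W), abs_of_nonneg hν]
    exact mul_le_mul_of_nonneg_left h4 (by positivity)
  have h9 : ε' * X + W * ν * (ε' * X) = ε * X := by
    rw [hε']
    field_simp
  rw [h9] at h7
  exact (le_mul_of_one_le_right (abs_nonneg _) hW1).trans h7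

/-- **The moments in a class of `G`.** -/
theorem momN_G {E : Type} [Fintype E] [DecidableEq E] {F : Type} [Fintype F] [DecidableEq F]
    {D : Dat2 ι κ} {w : κ → ZMod 2} (hD : OKt D w) (C : Cl2 D G) (h3 : C.H3) (P : BD κ E F)
    {k : ℕ} (hk : 1 ≤ k) (g : G) (v : ℝ) (hv0 : 0 ≤ v)
    (hv : TG k P w (fun j => C.A j g) = v * (2 ^ k) ^ Fintype.card F)
    (ε : ℝ) (hε : 0 < ε) : ∃ X₀ : ℕ, ∀ X : ℕ, X₀ ≤ X →
      |∑ S ∈ SG C g X, (kM D P S : ℝ) ^ k - v * (SG C g X).card| ≤ ε * X := by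
  refine cls_moment C h3 (fun S => (kM D P S : ℝ) ^ k) (TN0 k P w) ((2 ^ k) ^ Fintype.card F)
    (one_le_pow₀ (one_le_pow₀ (by norm_num))) (fun h tr hw ε hε => ?_) g v hv0 ?_ ε hε
  · obtain ⟨X0, h0⟩ := MoN_lim hD hw P hk ε hε
    refine ⟨X0, fun X hX => ?_⟩
    have h1 := h0 X hX
    rw [MoN] at h1
    push_cast
    exact h1
  · have h1 : TG k P w (fun j => C.A j g) = ∑ c0, e2 (∑ j, c0 j * C.A j g) * TN0 k P w c0 := rfl
    rw [← h1, hv]
    push_cast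
    ring

end

end Pool.Agent.Lib.MP_1a91b9_ntV
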