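import Pool.Agent.Lib.MP_1a91b9_ntH.D.UB
import Pool.Agent.Lib.MP_1a91b9_ntQ.D.Exp
import Pool.Agent.Lib.MP_1a91b9_ntQ.D.FamC

/-!
# MP_1a91b9_nt (twists over other fields), part D: the abstract engine, definitions

A label system with weights: `Phi l m` is the exponent of the symbol `(d_l / d_m)`, at most one of
`Phi l m`, `Phi m l` is not zero, and `g l q` is the weight of the label `l` at the prime `q` (it
may depend on the class of `q`, and it may be zero). No reciprocity law is used by the engine.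

`SumB ψ B`: the sums of `ψ q * N q ^ (-σ)` are at most `log B`. `ub2` is the upper bound for the
sum of a multiplicative function with values at most `((m - 1) + ψ q) / m`.
-/

set_option autoImplicit false

namespace Pool.Agent.Lib.MP_1a91b9_ntV

open Finset Pool.Agent.Lib.MP_1a91b9_ntH Pool.Agent.Lib.MP_1a91b9_ntQ

noncomputable section

/-- A real function on the primes whose Dirichlet series is at most `log B` on `(1, 3]`. -/
structure SumB {ι : Type} [PS ι] (ψ : ι → ℝ) (B : ℝ) : Prop where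
  hB : 1 ≤ B
  bound : ∀ σ : ℝ, 1 < σ → σ ≤ 3 → ∀ᶠ x : ℕ in Filter.atTop,
    ∑ q ∈ pr ι x, ψ q * (PS.N q : ℝ) ^ (-σ) ≤ Real.log B

section SumB

variable {ι : Type} [PS ι]

theorem SumB.of {χ : ι → ℝ} {B : ℝ} (h : CharB χ B) : SumB χ B := by
  refine ⟨h.hB, fun σ h1 h3 => ?_⟩
  have hB0 : 0 < B := by linarith [h.hB]
  filter_upwards [h.bound σ h1 h3] with x hx
  rw [Real.le_log_iff_exp_le hB0, Real.exp_sum]
  refine le_trans (prod_le_prod (fun q _ => (Real.exp_pos _).le) fun q _ => ?_) hx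
  obtain ⟨ht0, ht⟩ := eubD_rpow_neg q σ h1.le
  have hc := abs_le.mp (h.le q)
  have e2 : 0 < 1 - χ q * (PS.N q : ℝ) ^ (-σ) := by nlinarith [hc.2]
  rw [← one_div, le_div_iff₀ e2]
  have h4 := Real.add_one_le_exp (-(χ q * (PS.N q : ℝ) ^ (-σ)))
  have h5 : 1 - χ q * (PS.N q : ℝ) ^ (-σ) ≤ Real.exp (-(χ q * (PS.N q : ℝ) ^ (-σ))) := by
    linarith
  calc Real.exp (χ q * (PS.N q : ℝ) ^ (-σ)) * (1 - χ q * (PS.N q : ℝ) ^ (-σ))
      ≤ Real.exp (χ q * (PS.N q : ℝ) ^ (-σ)) * Real.exp (-(χ q * (PS.N q : ℝ) ^ (-σ))) :=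
        mul_le_mul_of_nonneg_left h5 (Real.exp_pos _).le
    _ = 1 := by rw [← Real.exp_add, add_neg_cancel, Real.exp_zero]

theorem SumB.add {ψ φ : ι → ℝ} {A B : ℝ} (h1 : SumB ψ A) (h2 : SumB φ B) :
    SumB (fun q => ψ q + φ q) (A * B) := by
  have hA : 1 ≤ A := h1.hB
  have hB : 1 ≤ B := h2.hB
  refine ⟨by nlinarith, fun σ s1 s3 => ?_⟩
  filter_upwards [h1.bound σ s1 s3, h2.bound σ s1 s3] with x hx hy
  rw [Real.log_mul (by linarith) (by linarith)]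
  simp only [add_mul, sum_add_distrib]
  linarith

theorem SumB.zero : SumB (fun _ : ι => (0 : ℝ)) 1 := by
  refine ⟨le_refl _, fun σ _ _ => Filter.Eventually.of_forall fun x => ?_⟩
  simp

theorem SumB.mono {ψ : ι → ℝ} {A B : ℝ} (h : SumB ψ A) (hAB : A ≤ B) : SumB ψ B := by
  have hA : 1 ≤ A := h.hB
  refine ⟨hA.trans hAB, fun σ s1 s3 => ?_⟩
  filter_upwards [h.bound σ s1 s3] with x hx
  exact hx.trans (Real.log_le_log (by linarith) hAB)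

theorem SumB.le {ψ φ : ι → ℝ} {B : ℝ} (h : SumB ψ B) (hle : ∀ q, φ q ≤ ψ q) : SumB φ B := by
  refine ⟨h.hB, fun σ s1 s3 => ?_⟩
  filter_upwards [h.bound σ s1 s3] with x hx
  refine le_trans (sum_le_sum fun q _ => ?_) hx
  exact mul_le_mul_of_nonneg_right (hle q) (Real.rpow_nonneg (Nat.cast_nonneg _) _)

end SumB

section UB

variable {ι : Type} [DecidableEq ι] [PS ι]

private theorem v_compare (w : ι → ℝ) (hw : ∀ q, 0 ≤ w q) (x : ℕ) (hx : 2 ≤ x) :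
    ∑ S ∈ Sx ι x, (∏ q ∈ S, w q) / nm S ≤
      Real.exp 1 * ∑ S ∈ Sx ι x, (∏ q ∈ S, w q) * (nm S : ℝ) ^ (-(1 + 1 / Real.log x)) := by
  have hxr : (2 : ℝ) ≤ x := by exact_mod_cast hx
  have hL : 0 < Real.log x := Real.log_pos (by linarith)
  rw [Finset.mul_sum]
  refine Finset.sum_le_sum fun S hS => ?_
  have hn0 : (0 : ℝ) < nm S := by exact_mod_cast one_le_nm S
  have hnx : (nm S : ℝ) ≤ x := by exact_mod_cast mem_Sx.1 hS
  have h4 : (nm S : ℝ) ^ (1 / Real.log x) ≤ Real.exp 1 := by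
    refine (Real.rpow_le_rpow hn0.le hnx (by positivity)).trans (le_of_eq ?_)
    rw [Real.rpow_def_of_pos (by linarith), mul_one_div_cancel hL.ne']
  have h5 : (nm S : ℝ)⁻¹ = (nm S : ℝ) ^ (-(1 + 1 / Real.log x)) * (nm S : ℝ) ^ (1 / Real.log x) := by
    rw [← Real.rpow_add hn0, ← Real.rpow_neg_one]
    congr 1
    ring
  have h6 : 0 ≤ (∏ q ∈ S, w q) * (nm S : ℝ) ^ (-(1 + 1 / Real.log x)) :=
    mul_nonneg (Finset.prod_nonneg fun q _ => hw q) (Real.rpow_nonneg hn0.le _)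
  calc (∏ q ∈ S, w q) / nm S = ((∏ q ∈ S, w q) * (nm S : ℝ) ^ (-(1 + 1 / Real.log x))) *
        (nm S : ℝ) ^ (1 / Real.log x) := by rw [div_eq_mul_inv, h5]; ring
    _ ≤ ((∏ q ∈ S, w q) * (nm S : ℝ) ^ (-(1 + 1 / Real.log x))) * Real.exp 1 :=
        mul_le_mul_of_nonneg_left h4 h6
    _ = _ := by ring

private theorem v_euler {C B : ℝ} {ψ : ι → ℝ} (hz : Zt ι C) (hψ : SumB ψ B) (m : ℕ) (hm : 2 ≤ m)
    (w : ι → ℝ) (hw : ∀ q, 0 ≤ w q ∧ w q ≤ ((m - 1 : ℝ) + ψ q) / m) (σ : ℝ) (h1 : 1 < σ)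
    (h3 : σ ≤ 3) (x : ℕ) :
    ∑ S ∈ Sx ι x, (∏ q ∈ S, w q) * (nm S : ℝ) ^ (-σ) ≤
      ((C / (σ - 1)) ^ (m - 1) * B) ^ (1 / (m : ℝ)) := by
  have hm2 : (2 : ℝ) ≤ m := by exact_mod_cast hm
  have hm0 : (0 : ℝ) < m := by linarith
  have hB1 : 1 ≤ B := hψ.hB
  obtain ⟨S, hS⟩ : ∃ S : ℝ, S = ∑ S ∈ Sx ι x, (∏ q ∈ S, w q) * (nm S : ℝ) ^ (-σ) := ⟨_, rfl⟩
  have hS0 : 0 ≤ S := by
    rw [hS]
    apply sum_nonneg
    intro T _
    exact mul_nonneg (prod_nonneg fun q _ => (hw q).1) (by positivity)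
  rw [← hS]
  obtain ⟨P, hP1, hP2⟩ := ((hψ.bound σ h1 h3).and (Filter.eventually_ge_atTop x)).exists
  have hsum : S ≤ ∏ q ∈ pr ι P, (1 + w q * (PS.N q : ℝ) ^ (-σ)) := by
    rw [hS]
    exact eubD_sum_le w (fun q => (hw q).1) σ x P hP2
  have hsum2 : S ≤ Real.exp (∑ q ∈ pr ι P, w q * (PS.N q : ℝ) ^ (-σ)) := by
    refine hsum.trans ?_
    rw [Real.exp_sum]
    refine prod_le_prod (fun q _ => ?_) fun q _ => ?_
    · have := (hw q).1
      positivity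
    · have := Real.add_one_le_exp (w q * (PS.N q : ℝ) ^ (-σ))
      linarith
  have hZ : Real.exp (∑ q ∈ pr ι P, (PS.N q : ℝ) ^ (-σ)) ≤ C / (σ - 1) := by
    refine le_trans ?_ (hz σ P h1 h3)
    rw [Real.exp_sum]
    refine prod_le_prod (fun q _ => (Real.exp_pos _).le) fun q _ => ?_
    obtain ⟨ht0, ht⟩ := eubD_rpow_neg q σ h1.le
    have e2 : 0 < 1 - (PS.N q : ℝ) ^ (-σ) := by linarith
    rw [← one_div, le_div_iff₀ e2]
    have h4 := Real.add_one_le_exp (-((PS.N q : ℝ) ^ (-σ)))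
    calc Real.exp ((PS.N q : ℝ) ^ (-σ)) * (1 - (PS.N q : ℝ) ^ (-σ))
        ≤ Real.exp ((PS.N q : ℝ) ^ (-σ)) * Real.exp (-((PS.N q : ℝ) ^ (-σ))) :=
          mul_le_mul_of_nonneg_left (by linarith) (Real.exp_pos _).le
      _ = 1 := by rw [← Real.exp_add, add_neg_cancel, Real.exp_zero]
  have hψ' : Real.exp (∑ q ∈ pr ι P, ψ q * (PS.N q : ℝ) ^ (-σ)) ≤ B := by
    rw [← Real.le_log_iff_exp_le (by linarith)]
    exact hP1
  have hmain : (m : ℝ) * ∑ q ∈ pr ι P, w q * (PS.N q : ℝ) ^ (-σ) ≤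
      ((m - 1 : ℕ) : ℝ) * ∑ q ∈ pr ι P, (PS.N q : ℝ) ^ (-σ) +
        ∑ q ∈ pr ι P, ψ q * (PS.N q : ℝ) ^ (-σ) := by
    rw [Nat.cast_sub (by omega), mul_sum, mul_sum, ← sum_add_distrib]
    refine sum_le_sum fun q _ => ?_
    have ht0 : 0 ≤ (PS.N q : ℝ) ^ (-σ) := Real.rpow_nonneg (Nat.cast_nonneg _) _
    have h4 := (hw q).2
    rw [le_div_iff₀ hm0] at h4
    have h5 := mul_le_mul_of_nonneg_right h4 ht0
    push_cast
    linarith
  have hfin : S ^ m ≤ (C / (σ - 1)) ^ (m - 1) * B := by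
    calc S ^ m ≤ (Real.exp (∑ q ∈ pr ι P, w q * (PS.N q : ℝ) ^ (-σ))) ^ m :=
          pow_le_pow_left₀ hS0 hsum2 m
      _ = Real.exp ((m : ℝ) * ∑ q ∈ pr ι P, w q * (PS.N q : ℝ) ^ (-σ)) := (Real.exp_nat_mul _ _).symm
      _ ≤ Real.exp (((m - 1 : ℕ) : ℝ) * ∑ q ∈ pr ι P, (PS.N q : ℝ) ^ (-σ) +
            ∑ q ∈ pr ι P, ψ q * (PS.N q : ℝ) ^ (-σ)) := Real.exp_le_exp.2 hmain
      _ = (Real.exp (∑ q ∈ pr ι P, (PS.N q : ℝ) ^ (-σ))) ^ (m - 1) *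
            Real.exp (∑ q ∈ pr ι P, ψ q * (PS.N q : ℝ) ^ (-σ)) := by
          rw [Real.exp_add, Real.exp_nat_mul]
      _ ≤ (C / (σ - 1)) ^ (m - 1) * B := by
          refine mul_le_mul (pow_le_pow_left₀ (Real.exp_pos _).le hZ _) hψ'
            (Real.exp_pos _).le ?_
          exact pow_nonneg ((Real.exp_pos _).le.trans hZ) _
  have hroot : S = (S ^ m) ^ (1 / (m : ℝ)) := by
    rw [← Real.rpow_natCast S m, ← Real.rpow_mul hS0, mul_one_div_cancel hm0.ne', Real.rpow_one]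
  rw [hroot]
  exact Real.rpow_le_rpow (by positivity) hfin (by positivity)

private theorem v_sigma (x : ℕ) (hx : 2 ≤ x) :
    1 < 1 + 1 / Real.log x ∧ 1 + 1 / Real.log x ≤ 3 ∧ 1 ≤ 2 * Real.log x := by
  have hxr : (2 : ℝ) ≤ x := by exact_mod_cast hx
  have hL : 0 < Real.log x := Real.log_pos (by linarith)
  have hL2 : 1 ≤ 2 * Real.log x := by
    have h1 : Real.log 2 ≤ Real.log x := Real.log_le_log (by norm_num) hxr
    have h2 := Real.log_two_gt_d9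
    linarith
  refine ⟨by have : 0 < 1 / Real.log x := one_div_pos.2 hL
             linarith, ?_, hL2⟩
  have : 1 / Real.log x ≤ 2 := by
    rw [div_le_iff₀ hL]
    exact hL2
  linarith

/-- The upper bound for a sum of a multiplicative function. -/
theorem ub2 {C1 C2 : ℝ} (h1 : Cheb ι C1) (h2 : Zt ι C2) (m : ℕ) (hm : 2 ≤ m) :
    ∃ K : ℝ, 0 < K ∧ ∀ (ψ : ι → ℝ) (B : ℝ), SumB ψ B → ∀ w : ι → ℝ,
      (∀ q, 0 ≤ w q ∧ w q ≤ 1 ∧ w q ≤ ((m - 1 : ℝ) + ψ q) / m) → ∀ x : ℕ, 2 ≤ x →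
      ∑ S ∈ Sx ι x, ∏ q ∈ S, w q ≤
        K * x * Real.log x ^ (-(1 / (m : ℝ))) * B ^ (1 / (m : ℝ)) := by
  have hm0 : (0 : ℝ) < m := by exact_mod_cast (by omega : 0 < m)
  set D : ℝ := max C2 1 with hD
  set E : ℝ := max (C1 + 1) 1 with hE
  have hD1 : 1 ≤ D := le_max_right _ _
  have hE1 : 1 ≤ E := le_max_right _ _
  refine ⟨E * Real.exp 1 * (D ^ (m - 1)) ^ (1 / (m : ℝ)), by positivity, ?_⟩
  intro ψ B hψ w hw x hx
  have hxr : (2 : ℝ) ≤ x := by exact_mod_cast hx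
  have hL : 0 < Real.log x := Real.log_pos (by linarith)
  have hB : 0 ≤ B := by linarith [hψ.hB]
  obtain ⟨s1, s2, -⟩ := v_sigma x hx
  have hall' := hall h1 w (fun q => ⟨(hw q).1, (hw q).2.1⟩) x (by omega)
  have heul := v_euler h2 hψ m hm w (fun q => ⟨(hw q).1, (hw q).2.2⟩) (1 + 1 / Real.log x) s1 s2 x
  have e1 : C2 / (1 + 1 / Real.log x - 1) = C2 * Real.log x := by
    rw [show 1 + 1 / Real.log x - 1 = 1 / Real.log x by ring, div_div_eq_mul_div, div_one]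
  rw [e1] at heul
  have hcmp := v_compare w (fun q => (hw q).1) x hx
  have hC2 : 0 ≤ C2 * Real.log x := by
    have h6 := h2 (1 + 1 / Real.log x) x s1 s2
    rw [e1] at h6
    refine le_trans ?_ h6
    refine Finset.prod_nonneg fun q _ => ?_
    have hq : (2 : ℝ) ≤ PS.N q := by exact_mod_cast PS.two_le q
    rw [inv_nonneg, sub_nonneg]
    refine Real.rpow_le_one_of_one_le_of_nonpos (by linarith) (by linarith)
  have h7 : ((C2 * Real.log x) ^ (m - 1) * B) ^ (1 / (m : ℝ)) ≤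
      (D ^ (m - 1)) ^ (1 / (m : ℝ)) * (Real.log x ^ (1 - 1 / (m : ℝ)) * B ^ (1 / (m : ℝ))) := by
    have h8 : (C2 * Real.log x) ^ (m - 1) * B ≤ D ^ (m - 1) * Real.log x ^ (m - 1) * B := by
      refine mul_le_mul_of_nonneg_right ?_ hB
      rw [← mul_pow]
      refine pow_le_pow_left₀ hC2 ?_ _
      exact mul_le_mul_of_nonneg_right (le_max_left _ _) hL.le
    refine (Real.rpow_le_rpow (by positivity) h8 (by positivity)).trans (le_of_eq ?_)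
    rw [Real.mul_rpow (by positivity) hB, Real.mul_rpow (by positivity) (by positivity), mul_assoc]
    congr 2
    rw [← Real.rpow_natCast, ← Real.rpow_mul hL.le]
    congr 1
    rw [Nat.cast_sub (by omega)]
    push_cast
    field_simp
  have hsum0 : 0 ≤ ∑ S ∈ Sx ι x, ∏ q ∈ S, w q :=
    Finset.sum_nonneg fun S _ => Finset.prod_nonneg fun q _ => (hw q).1
  have hsum1 : 0 ≤ ∑ S ∈ Sx ι x, (∏ q ∈ S, w q) / nm S :=
    Finset.sum_nonneg fun S _ => div_nonneg (Finset.prod_nonneg fun q _ => (hw q).1)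
      (Nat.cast_nonneg _)
  refine le_of_mul_le_mul_right ?_ hL
  refine hall'.trans ?_
  have h9 : (C1 + 1) * x * ∑ S ∈ Sx ι x, (∏ q ∈ S, w q) / nm S ≤
      E * x * ∑ S ∈ Sx ι x, (∏ q ∈ S, w q) / nm S := by
    refine mul_le_mul_of_nonneg_right ?_ hsum1
    exact mul_le_mul_of_nonneg_right (le_max_left _ _) (Nat.cast_nonneg _)
  refine h9.trans ?_
  have h10 : E * x * ∑ S ∈ Sx ι x, (∏ q ∈ S, w q) / nm S ≤
      E * x * (Real.exp 1 * ((D ^ (m - 1)) ^ (1 / (m : ℝ)) *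
        (Real.log x ^ (1 - 1 / (m : ℝ)) * B ^ (1 / (m : ℝ))))) := by
    refine mul_le_mul_of_nonneg_left ?_ (by positivity)
    exact hcmp.trans (mul_le_mul_of_nonneg_left (heul.trans h7) (Real.exp_pos 1).le)
  refine h10.trans (le_of_eq ?_)
  have h11 : Real.log x ^ (1 - 1 / (m : ℝ)) = Real.log x ^ (-(1 / (m : ℝ))) * Real.log x := by
    rw [← Real.rpow_add_one hL.ne']
    congr 1
    ring
  rw [h11]
  ring

end UB

/-- A label system with weights. -/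
structure LG (L ι : Type) where
  Phi : L → L → ZMod 2
  g : L → ι → ℂ

section Sys

variable {ι : Type} [DecidableEq ι] {κ : Type} {L : Type}

/-- Two labels are linked if this is not `0`. -/
def LG.lk (Λ : LG L ι) (l m : L) : ZMod 2 := Λ.Phi l m + Λ.Phi m l

/-- Unlinked sets of labels. -/
def LG.Unl (Λ : LG L ι) (U : Finset L) : Prop := ∀ l ∈ U, ∀ m ∈ U, Λ.lk l m = 0

variable [Fintype L] [DecidableEq L]

/-- The exponent of a family. -/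
def eg (D : Dat2 ι κ) (Λ : LG L ι) (d : L → Finset ι) : ZMod 2 :=
  ∑ l, ∑ m, Λ.Phi l m * D.ss (d l) (d m)

/-- The weight of a family. -/
def wg (Λ : LG L ι) (d : L → Finset ι) : ℂ := ∏ l, ∏ q ∈ d l, Λ.g l q

/-- The summand after expansion. -/
def FG (D : Dat2 ι κ) (Λ : LG L ι) (d : L → Finset ι) : ℂ := wg Λ d * e2 (eg D Λ d)

/-- The exponent of the local factor. -/
def xg (D : Dat2 ι κ) (Λ : LG L ι) (b : L → Finset ι) (l : L) (q : ι) : ZMod 2 :=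
  ∑ m, (Λ.Phi l m * D.ss {q} (b m) + Λ.Phi m l * D.ss (b m) {q})

/-- The local factor of the inner sum. -/
def HG (D : Dat2 ι κ) (Λ : LG L ι) (U : Finset L) (b : L → Finset ι) (q : ι) : ℂ :=
  ∑ l ∈ U, Λ.g l q * e2 (xg D Λ b l q)

/-- The analytic hypotheses on the symbols. -/
structure An (D : Dat2 ι κ) [PS ι] : Prop where
  cheb : ∃ C, Cheb ι C
  zt : ∃ C, Zt ι C
  bl : ∃ C K c, 0 < c ∧ D.BL C K c

/-- The hypotheses on a label system with weights; `Us` is the set of the maximal unlinked sets,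
`mU U` is the mean value for the set `U` and `N X` the number of squarefree integers. -/
structure LG.OK (Λ : LG L ι) [PS ι] (D : Dat2 ι κ) (M : ℕ) (Us : Finset (Finset L))
    (mU : Finset L → ℂ) (N : ℕ → ℂ) : Prop where
  diag : ∀ l, Λ.Phi l l = 0
  os : ∀ l m, Λ.Phi l m = 0 ∨ Λ.Phi m l = 0
  nrm : ∀ l q, ‖Λ.g l q‖ ≤ 1
  two : 2 ≤ M
  unl : ∀ U ∈ Us, Λ.Unl U
  er : ∀ U ∈ Us, ∀ l ∈ U, U.erase l ∉ Us
  small : ∃ B, ∀ Z, Λ.Unl Z → Z ∉ Us → ∃ ψ : ι → ℝ, SumB ψ B ∧ ∀ q,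
    ∑ l ∈ Z, ‖Λ.g l q‖ ≤ 1 ∧ ∑ l ∈ Z, ‖Λ.g l q‖ ≤ ((M - 1 : ℝ) + ψ q) / M
  mid : ∃ C : ℝ, ∀ U ∈ Us, ∀ b : L → Finset ι, PD b → (∀ l ∈ U, b l = ∅) → uni b ≠ ∅ →
    (∀ l, ∀ q ∈ b l, Λ.g l q ≠ 0) →
    ∃ ψ : ι → ℝ, SumB ψ ((C * (1 + Real.log (nm (uni b)))) ^ M) ∧
      (∀ q, 0 ≤ (M - 1 : ℝ) + ψ q) ∧ ∀ q, q ∉ uni b →
        ‖HG D Λ U b q‖ ≤ 1 ∧ ‖HG D Λ U b q‖ ≤ ((M - 1 : ℝ) + ψ q) / M
  main : ∀ U ∈ Us, ∀ ε : ℝ, 0 < ε → ∃ X₀ : ℕ, ∀ X : ℕ, X₀ ≤ X →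
    ‖∑ S ∈ Sx ι X, ∏ q ∈ S, ∑ l ∈ U, Λ.g l q - mU U * N X‖ ≤ ε * X

end Sys

end

end Pool.Agent.Lib.MP_1a91b9_ntV
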