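import Pool.Agent.Lib.MP_1a91b9_ntH.D.DivLog
import Pool.Agent.Lib.MP_1a91b9_ntQ.D.InnerB
import Pool.Agent.Lib.MP_1a91b9_ntV.D.Inner

/-!
# MP_1a91b9_nt (twists over other fields), part D: the inner sum with a nontrivial small family
-/

set_option autoImplicit false
set_option linter.unusedSectionVars false

namespace Pool.Agent.Lib.MP_1a91b9_ntV

open Finset Pool.Agent.Lib.MP_1a91b9_ntH Pool.Agent.Lib.MP_1a91b9_ntQ

noncomputable section

variable {ι : Type} [DecidableEq ι] [PS ι] {L : Type} [Fintype L] [DecidableEq L] {κ : Type} [Fintype κ]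

open Classical in
theorem inner_nontrivG (D : Dat2 ι κ) (hD : An D) (Λ : LG L ι) {M : ℕ} {Us : Finset (Finset L)}
    {mU : Finset L → ℂ} {N : ℕ → ℂ} (hΛ : Λ.OK D M Us mU N) :
    ∃ C : ℝ, 0 < C ∧ ∀ U ∈ Us, ∀ V : ℕ, 1 ≤ V → ∀ b ∈ SmB ι V U, uni b ≠ ∅ → ∀ Y : ℕ, 2 ≤ Y →
      ‖∑ S ∈ (Sx ι Y).filter (fun S => Disjoint S (uni b)), ∑ d ∈ FamU U S,
        FG D Λ (fun l => b l ∪ d l)‖ ≤
        C * Y * Real.log Y ^ (-(1 / (M : ℝ))) * (1 + Real.log V) := by
  obtain ⟨C1, hC1⟩ := hD.cheb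
  obtain ⟨C2, hC2⟩ := hD.zt
  obtain ⟨C3, hC3⟩ := hΛ.mid
  have hM2 : 2 ≤ M := hΛ.two
  obtain ⟨K, hK, hub⟩ := ub2 hC1 hC2 M hM2
  have hMr : (2 : ℝ) ≤ M := by exact_mod_cast hM2
  have hM0 : (0 : ℝ) < M := by linarith
  refine ⟨K * ((|C3| + 1) * (1 + Fintype.card L)) + 1, by positivity, ?_⟩
  intro U hU V hV b hb hne Y hY
  rw [mem_SmB] at hb
  obtain ⟨hbV, hbPD, hbU⟩ := hb
  have hYr : (2 : ℝ) ≤ Y := by exact_mod_cast hY
  have hlogY : 0 < Real.log Y := Real.log_pos (by linarith)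
  have hVr : (1 : ℝ) ≤ V := by exact_mod_cast hV
  have hlogV : 0 ≤ Real.log V := Real.log_nonneg hVr
  have hE : 0 ≤ (Y : ℝ) * Real.log Y ^ (-(1 / (M : ℝ))) * (1 + Real.log V) := by positivity
  -- rewriting the inner sums
  have e1 : ∑ S ∈ (Sx ι Y).filter (fun S => Disjoint S (uni b)), ∑ d ∈ FamU U S,
      FG D Λ (fun l => b l ∪ d l) = wg Λ b * e2 (eg D Λ b) *
        ∑ S ∈ (Sx ι Y).filter (fun S => Disjoint S (uni b)), ∏ q ∈ S, HG D Λ U b q := by
    rw [Finset.sum_congr rfl fun S hS => inner_eqG D Λ hΛ.os U (hΛ.unl U hU) b S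
      (Finset.mem_filter.1 hS).2, ← Finset.mul_sum]
  by_cases hnz : ∀ l, ∀ q ∈ b l, Λ.g l q ≠ 0
  swap
  · rw [e1, wg_zero Λ b hnz, zero_mul, zero_mul, norm_zero]
    have : 0 ≤ (K * ((|C3| + 1) * (1 + Fintype.card L)) + 1) *
        (Y * Real.log Y ^ (-(1 / (M : ℝ))) * (1 + Real.log V)) := by positivity
    calc (0 : ℝ) ≤ _ := this
      _ = _ := by ring
  have key : ‖∑ S ∈ (Sx ι Y).filter (fun S => Disjoint S (uni b)),
      ∏ q ∈ S, HG D Λ U b q‖ ≤ K * Y * Real.log Y ^ (-(1 / (M : ℝ))) *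
        (((|C3| + 1) * (1 + Fintype.card L)) * (1 + Real.log V)) := by
    obtain ⟨ψ, hψ, hψ0, hψb⟩ := hC3 U hU b hbPD hbU hne hnz
    set w : ι → ℝ := fun q => if q ∈ uni b then 0 else ‖HG D Λ U b q‖ with hw
    have hw0 : ∀ q, 0 ≤ w q ∧ w q ≤ 1 ∧ w q ≤ ((M - 1 : ℝ) + ψ q) / M := by
      intro q
      simp only [hw]
      split_ifs with hq
      · exact ⟨le_rfl, zero_le_one, div_nonneg (hψ0 q) hM0.le⟩
      · exact ⟨norm_nonneg _, (hψb q hq).1, (hψb q hq).2⟩
    have h2 := hub _ _ hψ w hw0 Y hY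
    have h3 : ‖∑ S ∈ (Sx ι Y).filter (fun S => Disjoint S (uni b)), ∏ q ∈ S, HG D Λ U b q‖ ≤
        ∑ S ∈ Sx ι Y, ∏ q ∈ S, w q := by
      refine (norm_sum_le _ _).trans ?_
      have h4 : ∀ S ∈ (Sx ι Y).filter (fun S => Disjoint S (uni b)),
          ‖∏ q ∈ S, HG D Λ U b q‖ = ∏ q ∈ S, w q := by
        intro S hS
        rw [norm_prod]
        refine Finset.prod_congr rfl fun q hq => ?_
        simp only [hw]
        rw [if_neg (Finset.disjoint_left.1 (Finset.mem_filter.1 hS).2 hq)]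
      rw [Finset.sum_congr rfl h4]
      refine Finset.sum_le_sum_of_subset_of_nonneg (Finset.filter_subset _ _) fun S _ _ => ?_
      exact Finset.prod_nonneg fun q _ => (hw0 q).1
    refine h3.trans (h2.trans ?_)
    refine mul_le_mul_of_nonneg_left ?_ (by positivity)
    set B : ℝ := C3 * (1 + Real.log (nm (uni b))) with hB
    have hBM : 1 ≤ B ^ M := hψ.hB
    set B' : ℝ := (|C3| + 1) * (1 + Real.log (nm (uni b))) with hB'
    have hTn : (1 : ℝ) ≤ nm (uni b) := by exact_mod_cast one_le_nm (uni b)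
    have h6 : Real.log (nm (uni b)) ≤ Fintype.card L * Real.log V := by
      have h7 : nm (uni b) ≤ V ^ Fintype.card L := by
        rw [nm_uni hbPD]
        exact nmf_le_pow (U := U) (mem_SmB.2 ⟨hbV, hbPD, hbU⟩)
      have h8 : (nm (uni b) : ℝ) ≤ (V : ℝ) ^ Fintype.card L := by exact_mod_cast h7
      have h9 := Real.log_le_log (by linarith) h8
      rwa [Real.log_pow] at h9
    have h10 : 0 ≤ Real.log (nm (uni b)) := Real.log_nonneg hTn
    have hcL : (0 : ℝ) ≤ Fintype.card L := Nat.cast_nonneg _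
    have hB'0 : 0 ≤ B' := by positivity
    have habs : |B| ≤ B' := by
      rw [hB, hB', abs_mul, abs_of_nonneg (by linarith : 0 ≤ 1 + Real.log (nm (uni b)))]
      refine mul_le_mul_of_nonneg_right (by linarith) (by linarith)
    have h5 : (B ^ M) ^ (1 / (M : ℝ)) ≤ B' := by
      have h51 : B ^ M ≤ B' ^ M := by
        refine (le_abs_self _).trans ?_
        rw [abs_pow]
        exact pow_le_pow_left₀ (abs_nonneg _) habs M
      calc (B ^ M) ^ (1 / (M : ℝ)) ≤ (B' ^ M) ^ (1 / (M : ℝ)) :=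
            Real.rpow_le_rpow (by linarith) h51 (by positivity)
        _ = B' := by
            rw [← Real.rpow_natCast B' M, ← Real.rpow_mul hB'0, mul_one_div_cancel hM0.ne',
              Real.rpow_one]
    refine h5.trans ?_
    calc B' ≤ (|C3| + 1) * (1 + (Fintype.card L * Real.log V)) := by
          refine mul_le_mul_of_nonneg_left (by linarith) (by positivity)
      _ ≤ (|C3| + 1) * ((1 + Fintype.card L) * (1 + Real.log V)) := by
          refine mul_le_mul_of_nonneg_left ?_ (by positivity)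
          nlinarith
      _ = _ := by ring
  have hmi : ‖wg Λ b * e2 (eg D Λ b)‖ ≤ 1 := by
    rw [norm_mul, norm_e2, mul_one]
    exact norm_wg_le Λ hΛ.nrm b
  rw [e1, norm_mul]
  calc _ ≤ 1 * _ := mul_le_mul_of_nonneg_right hmi (norm_nonneg _)
    _ = _ := one_mul _
    _ ≤ _ := key
    _ = (K * ((|C3| + 1) * (1 + Fintype.card L))) *
        (Y * Real.log Y ^ (-(1 / (M : ℝ))) * (1 + Real.log V)) := by ring
    _ ≤ (K * ((|C3| + 1) * (1 + Fintype.card L)) + 1) *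
        (Y * Real.log Y ^ (-(1 / (M : ℝ))) * (1 + Real.log V)) := by
        refine mul_le_mul_of_nonneg_right (by linarith) hE
    _ = _ := by ring

end

end Pool.Agent.Lib.MP_1a91b9_ntV
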