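import Pool.Agent.Lib.MP_1a91b9_ntQ.D.Mat

/-!
# MP_1a91b9_nt (twists over other fields), part D: matrices which are not symmetric

The matrix `NM` of the set of primes `S`: the symbols `s i j` off the diagonal, the row sums
`∑ j, kap j * a i j`; bordered by the columns `be e`, `e : E`, and the rows `bf f`, `f : F`, with
the corner `R`. No reciprocity law is assumed. `kM_pow_mul` is the expansion of the powers of the
size of the kernel.
-/

set_option autoImplicit false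
set_option linter.unusedSectionVars false

namespace Pool.Agent.Lib.MP_1a91b9_ntV

open Finset Pool.Agent.Lib.MP_1a91b9_ntH Pool.Agent.Lib.MP_1a91b9_ntQ
open Pool.Agent.Lib.MP_1a91b9_ntQ.Da

noncomputable section

variable {ι : Type} [DecidableEq ι] {κ : Type} [Fintype κ] {E : Type} [Fintype E] [DecidableEq E]
  {F : Type} [Fintype F] [DecidableEq F]

/-- The data of a bordered matrix: class vectors of the diagonal, of the columns and of the rows of
the border, and the corner. -/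
structure BD (κ E F : Type) where
  kap : κ → ZMod 2
  be : E → κ → ZMod 2
  bf : F → κ → ZMod 2
  R : Matrix F E (ZMod 2)

/-- The bordered matrix. -/
def NM (D : Dat2 ι κ) (P : BD κ E F) (S : Finset ι) : Matrix (S ⊕ F) (S ⊕ E) (ZMod 2) :=
  Matrix.fromBlocks (D.N P.kap S) (Matrix.of fun i e => D.dg (P.be e) i)
    (Matrix.of fun f i => D.dg (P.bf f) i) P.R

/-- The size of the kernel. -/
def kM (D : Dat2 ι κ) (P : BD κ E F) (S : Finset ι) : ℕ :=
  Fintype.card {v : S ⊕ E → ZMod 2 // (NM D P S).mulVec v = 0}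

theorem NM_inl (D : Dat2 ι κ) (P : BD κ E F) (S : Finset ι) (v : S ⊕ E → ZMod 2) (j : S) :
    (NM D P S).mulVec v (Sum.inl j) = D.dg P.kap j * v (Sum.inl j) +
      ∑ l : S, D.s j l * (v (Sum.inl j) + v (Sum.inl l)) +
        ∑ e, D.dg (P.be e) j * v (Sum.inr e) := by
  rw [NM, Matrix.fromBlocks_mulVec, Sum.elim_inl, Pi.add_apply, D.N_mulVec]
  rfl

theorem NM_inr (D : Dat2 ι κ) (P : BD κ E F) (S : Finset ι) (v : S ⊕ E → ZMod 2) (f : F) :
    (NM D P S).mulVec v (Sum.inr f) = ∑ l : S, D.dg (P.bf f) l * v (Sum.inl l) +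
      ∑ e, P.R f e * v (Sum.inr e) := by
  rw [NM, Matrix.fromBlocks_mulVec, Sum.elim_inr, Pi.add_apply]
  rfl

variable {k : ℕ}

/-- The border labels. -/
abbrev BL (k : ℕ) (E F : Type) : Type := (E → Fin k → ZMod 2) × (F → Fin k → ZMod 2)

/-- The exponent of the corner. -/
def RG (P : BD κ E F) (m : BL k E F) : ZMod 2 := ∑ f, ∑ e, P.R f e * (m.2 f ⬝ᵥ m.1 e)

/-- The class vector of a label. -/
def cN (P : BD κ E F) (m : BL k E F) (l : Lab2 k) (j : κ) : ZMod 2 :=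
  P.kap j * Q2 l + (∑ e, P.be e j * (l.2 ⬝ᵥ m.1 e) + ∑ f, P.bf f j * (m.2 f ⬝ᵥ l.1))

omit [DecidableEq ι] in
theorem dg_cN (D : Dat2 ι κ) (P : BD κ E F) (m : BL k E F) (l : Lab2 k) (q : ι) :
    D.dg (cN P m l) q = D.dg P.kap q * Q2 l + (∑ e, D.dg (P.be e) q * (l.2 ⬝ᵥ m.1 e) +
      ∑ f, D.dg (P.bf f) q * (m.2 f ⬝ᵥ l.1)) := by
  unfold Dat2.dg cN
  simp only [add_mul, sum_add_distrib]
  congr 1
  · rw [sum_mul]
    exact sum_congr rfl fun j _ => by ring
  · congr 1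
    · simp only [sum_mul]
      rw [sum_comm]
      exact sum_congr rfl fun e _ => sum_congr rfl fun j _ => by ring
    · simp only [sum_mul]
      rw [sum_comm]
      exact sum_congr rfl fun e _ => sum_congr rfl fun j _ => by ring

/-- The exponent of a labelling. -/
def EEN (D : Dat2 ι κ) (P : BD κ E F) (S : Finset ι) (f : S → Lab2 k) (m : BL k E F) : ZMod 2 :=
  (∑ j : S, D.dg (cN P m (f j)) j + ∑ j : S, ∑ l : S, PhiQ (f j) (f l) * D.s j l) + RG P m

/-- The value of the form of the bordered matrix. -/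
theorem form_NM (D : Dat2 ι κ) (P : BD κ E F) (S : Finset ι) (x : S ⊕ E → ZMod 2)
    (y : S ⊕ F → ZMod 2) :
    y ⬝ᵥ (NM D P S).mulVec x =
      ∑ j : S, (D.dg P.kap j * (x (Sum.inl j) * y (Sum.inl j)) +
        (∑ e, D.dg (P.be e) j * (y (Sum.inl j) * x (Sum.inr e)) +
          ∑ f, D.dg (P.bf f) j * (y (Sum.inr f) * x (Sum.inl j)))) +
      ∑ j : S, ∑ l : S, (y (Sum.inl j) * (x (Sum.inl j) + x (Sum.inl l))) * D.s j l +
      ∑ f, ∑ e, P.R f e * (y (Sum.inr f) * x (Sum.inr e)) := by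
  rw [dotProduct, Fintype.sum_sum_type]
  simp only [NM_inl, NM_inr, mul_add, sum_add_distrib, mul_sum]
  have h1 : ∑ f : F, ∑ l : S, y (Sum.inr f) * (D.dg (P.bf f) l * x (Sum.inl l)) =
      ∑ l : S, ∑ f : F, D.dg (P.bf f) l * (y (Sum.inr f) * x (Sum.inl l)) := by
    rw [sum_comm]
    exact sum_congr rfl fun l _ => sum_congr rfl fun e _ => by ring
  have h2 : ∑ f : F, ∑ e : E, y (Sum.inr f) * (P.R f e * x (Sum.inr e)) =
      ∑ f : F, ∑ e : E, P.R f e * (y (Sum.inr f) * x (Sum.inr e)) :=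
    sum_congr rfl fun l _ => sum_congr rfl fun e _ => by ring
  have h3 : ∑ j : S, y (Sum.inl j) * (D.dg P.kap j * x (Sum.inl j)) =
      ∑ j : S, D.dg P.kap j * (x (Sum.inl j) * y (Sum.inl j)) :=
    sum_congr rfl fun l _ => by ring
  have h4 : ∑ j : S, ∑ l : S, y (Sum.inl j) * (D.s j l * x (Sum.inl j)) =
      ∑ j : S, ∑ l : S, y (Sum.inl j) * x (Sum.inl j) * D.s j l :=
    sum_congr rfl fun l _ => sum_congr rfl fun e _ => by ring
  have h5 : ∑ j : S, ∑ l : S, y (Sum.inl j) * (D.s j l * x (Sum.inl l)) =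
      ∑ j : S, ∑ l : S, y (Sum.inl j) * x (Sum.inl l) * D.s j l :=
    sum_congr rfl fun l _ => sum_congr rfl fun e _ => by ring
  have h6 : ∑ j : S, ∑ e : E, y (Sum.inl j) * (D.dg (P.be e) j * x (Sum.inr e)) =
      ∑ j : S, ∑ e : E, D.dg (P.be e) j * (y (Sum.inl j) * x (Sum.inr e)) :=
    sum_congr rfl fun l _ => sum_congr rfl fun e _ => by ring
  rw [h1, h2, h3, h4, h5, h6]
  simp only [add_mul, sum_add_distrib]
  ring

/-- The bijection between the vectors and the labellings. -/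
def vecLabN (k : ℕ) (S : Finset ι) (E F : Type) :
    (Fin k → (S ⊕ E → ZMod 2) × (S ⊕ F → ZMod 2)) ≃ (S → Lab2 k) × BL k E F where
  toFun g := (fun j => (fun i => (g i).1 (Sum.inl j), fun i => (g i).2 (Sum.inl j)),
    (fun e i => (g i).1 (Sum.inr e), fun f i => (g i).2 (Sum.inr f)))
  invFun f i := (Sum.elim (fun j => (f.1 j).1 i) (fun e => f.2.1 e i),
    Sum.elim (fun j => (f.1 j).2 i) (fun e => f.2.2 e i))
  left_inv g := by
    funext i
    refine Prod.ext (funext fun j => ?_) (funext fun j => ?_)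
    · rcases j with j | e <;> rfl
    · rcases j with j | e <;> rfl
  right_inv f := rfl

theorem exp_eqN (D : Dat2 ι κ) (P : BD κ E F) (S : Finset ι)
    (g : Fin k → (S ⊕ E → ZMod 2) × (S ⊕ F → ZMod 2)) :
    ∑ i, (g i).2 ⬝ᵥ (NM D P S).mulVec (g i).1 =
      EEN D P S (vecLabN k S E F g).1 (vecLabN k S E F g).2 := by
  simp only [form_NM, sum_add_distrib]
  unfold EEN
  simp only [dg_cN, sum_add_distrib]
  have a1 : ∑ i, ∑ j : S, D.dg P.kap j * ((g i).1 (Sum.inl j) * (g i).2 (Sum.inl j)) =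
      ∑ j : S, D.dg P.kap j * Q2 ((vecLabN k S E F g).1 j) := by
    rw [sum_comm]
    refine sum_congr rfl fun j _ => ?_
    rw [← mul_sum]
    rfl
  have a2 : ∑ i, ∑ j : S, ∑ e : E, D.dg (P.be e) j * ((g i).2 (Sum.inl j) * (g i).1 (Sum.inr e)) =
      ∑ j : S, ∑ e : E, D.dg (P.be e) j *
        (((vecLabN k S E F g).1 j).2 ⬝ᵥ (vecLabN k S E F g).2.1 e) := by
    rw [sum_comm]
    refine sum_congr rfl fun j _ => ?_
    rw [sum_comm]
    refine sum_congr rfl fun e _ => ?_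
    rw [← mul_sum]
    rfl
  have a3 : ∑ i, ∑ j : S, ∑ f : F, D.dg (P.bf f) j * ((g i).2 (Sum.inr f) * (g i).1 (Sum.inl j)) =
      ∑ j : S, ∑ f : F, D.dg (P.bf f) j *
        ((vecLabN k S E F g).2.2 f ⬝ᵥ ((vecLabN k S E F g).1 j).1) := by
    rw [sum_comm]
    refine sum_congr rfl fun j _ => ?_
    rw [sum_comm]
    refine sum_congr rfl fun e _ => ?_
    rw [← mul_sum]
    rfl
  have a4 : ∑ i, ∑ j : S, ∑ l : S, (g i).2 (Sum.inl j) * ((g i).1 (Sum.inl j) +
        (g i).1 (Sum.inl l)) * D.s j l =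
      ∑ j : S, ∑ l : S, PhiQ ((vecLabN k S E F g).1 j) ((vecLabN k S E F g).1 l) * D.s j l := by
    rw [sum_comm]
    refine sum_congr rfl fun j _ => ?_
    rw [sum_comm]
    refine sum_congr rfl fun l _ => ?_
    rw [← sum_mul]
    rfl
  have a5 : ∑ i, ∑ f : F, ∑ e : E, P.R f e * ((g i).2 (Sum.inr f) * (g i).1 (Sum.inr e)) =
      RG P (vecLabN k S E F g).2 := by
    rw [RG, sum_comm]
    refine sum_congr rfl fun e _ => ?_
    rw [sum_comm]
    refine sum_congr rfl fun f _ => ?_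
    rw [← mul_sum]
    rfl
  rw [a1, a2, a3, a4, a5]

theorem kM_mul (D : Dat2 ι κ) (P : BD κ E F) (S : Finset ι) :
    (kM D P S : ℂ) * 2 ^ (S.card + Fintype.card F) =
      ∑ p : (S ⊕ E → ZMod 2) × (S ⊕ F → ZMod 2), e2 (p.2 ⬝ᵥ (NM D P S).mulVec p.1) := by
  rw [Fintype.sum_prod_type]
  have h1 : ∀ v : S ⊕ E → ZMod 2, ∑ w : S ⊕ F → ZMod 2, e2 (w ⬝ᵥ (NM D P S).mulVec v) =
      if (NM D P S).mulVec v = 0 then (2 ^ (S.card + Fintype.card F) : ℂ) else 0 := by
    intro v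
    rw [sum_dotE, Fintype.card_sum, Fintype.card_coe]
  simp only [h1]
  rw [← sum_filter, sum_const, nsmul_eq_mul, kM, Fintype.card_subtype]

/-- The expansion of the `k`-th power of the size of the kernel. -/
theorem kM_pow_mul (D : Dat2 ι κ) (P : BD κ E F) (S : Finset ι) :
    (kM D P S : ℂ) ^ k * (2 ^ k) ^ (S.card + Fintype.card F) =
      ∑ m : BL k E F, e2 (RG P m) * ∑ f : S → Lab2 k,
        e2 (∑ j : S, D.dg (cN P m (f j)) j + ∑ j : S, ∑ l : S, PhiQ (f j) (f l) * D.s j l) := by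
  have h : ((2 : ℂ) ^ k) ^ (S.card + Fintype.card F) = (2 ^ (S.card + Fintype.card F)) ^ k := by
    rw [← pow_mul, ← pow_mul, mul_comm]
  have h2 : ∑ m : BL k E F, e2 (RG P m) * ∑ f : S → Lab2 k,
        e2 (∑ j : S, D.dg (cN P m (f j)) j + ∑ j : S, ∑ l : S, PhiQ (f j) (f l) * D.s j l) =
      ∑ p : (S → Lab2 k) × BL k E F, e2 (EEN D P S p.1 p.2) := by
    have h3 : ∑ p : (S → Lab2 k) × BL k E F, e2 (EEN D P S p.1 p.2) =
        ∑ m : BL k E F, ∑ f : S → Lab2 k, e2 (EEN D P S f m) := Fintype.sum_prod_type_right _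
    rw [h3]
    refine sum_congr rfl fun m _ => ?_
    rw [mul_sum]
    refine sum_congr rfl fun f _ => ?_
    rw [EEN, e2_add _ (RG P m), mul_comm]
  rw [h, ← mul_pow, kM_mul, Fintype.sum_pow, h2]
  refine Fintype.sum_equiv (vecLabN k S E F) _ _ ?_
  intro g
  rw [← e2_sum, exp_eqN]

end

end Pool.Agent.Lib.MP_1a91b9_ntV
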